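import Mathlib

set_option autoImplicit false

open Matrix
open scoped ENNReal BigOperators ComplexOrder

namespace Pool.Agent.N95.PM

/-- The vector of singular values of a complex square matrix: the square roots of the eigenvalues
of `Aᴴ A`. -/
noncomputable def singVals {n : ℕ} (A : Matrix (Fin n) (Fin n) ℂ) : Fin n → ℝ :=
  fun i => Real.sqrt ((isHermitian_conjTranspose_mul_self A).eigenvalues i)

/-- The Schatten `q`-norm: the `ℓ_q` norm of the vector of singular values. -/
noncomputable def schatten {n : ℕ} (q : ℝ≥0∞) (A : Matrix (Fin n) (Fin n) ℂ) : ℝ :=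
  ‖(WithLp.toLp q (singVals A) : PiLp q (fun _ : Fin n => ℝ))‖

/-- The real power of a Hermitian matrix through the functional calculus. -/
noncomputable def mpow {n : ℕ} (A : Matrix (Fin n) (Fin n) ℂ) (s : ℝ) :
    Matrix (Fin n) (Fin n) ℂ :=
  cfc (fun x : ℝ => x ^ s) A

/-- The weighted power mean `(t X^p + (1-t) Y^p)^(1/p)`. -/
noncomputable def powerMean {n : ℕ} (p t : ℝ) (X Y : Matrix (Fin n) (Fin n) ℂ) :
    Matrix (Fin n) (Fin n) ℂ :=
  mpow (t • mpow X p + (1 - t) • mpow Y p) (1 / p)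

/-- The power mean with exponent `p` is monotonic with respect to `δ_q`. -/
def PowerMeanMonotonic (p : ℝ) (q : ℝ≥0∞) : Prop :=
  ∀ (n : ℕ) (X Y : Matrix (Fin n) (Fin n) ℂ), X.PosDef → Y.PosDef →
    MonotoneOn (fun t : ℝ => schatten q (powerMean p t X Y - Y)) (Set.Icc 0 1)

/-- l_q norm depends only on the multiset of values. -/
theorem norm_eq_of_multiset {n : ℕ} (q : ℝ≥0∞) (hq : 1 ≤ q) (f g : Fin n → ℝ)
    (h : Multiset.map f Finset.univ.val = Multiset.map g Finset.univ.val) :
    ‖(WithLp.toLp q f : PiLp q (fun _ : Fin n => ℝ))‖ =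
      ‖(WithLp.toLp q g : PiLp q (fun _ : Fin n => ℝ))‖ := by
  rcases eq_or_ne q ∞ with rfl | hqt
  · rw [PiLp.norm_eq_ciSup, PiLp.norm_eq_ciSup]
    have hr : Set.range f = Set.range g := by
      ext x
      have := congrArg (fun s => x ∈ s) h
      simpa [Multiset.mem_map] using this
    have h1 : ∀ f : Fin n → ℝ, (⨆ i, ‖(WithLp.toLp ∞ f : PiLp ∞ (fun _ : Fin n => ℝ)) i‖)
        = sSup ((fun x : ℝ => ‖x‖) '' Set.range f) := by
      intro f
      rw [← Set.range_comp]
      rfl
    rw [h1, h1, hr]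
  · have hq0 : 0 < q.toReal := ENNReal.toReal_pos (by positivity) hqt
    rw [PiLp.norm_eq_sum hq0, PiLp.norm_eq_sum hq0]
    congr 1
    have h1 : ∀ f : Fin n → ℝ, (∑ i, ‖(WithLp.toLp q f : PiLp q (fun _ : Fin n => ℝ)) i‖ ^ q.toReal)
        = (Multiset.map (fun x : ℝ => ‖x‖ ^ q.toReal) (Multiset.map f Finset.univ.val)).sum := by
      intro f
      rw [Multiset.map_map]
      rfl
    rw [h1, h1, h]

/-- Singular values of a Hermitian matrix are the absolute values of its eigenvalues. -/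
theorem singVals_multiset {n : ℕ} (M : Matrix (Fin n) (Fin n) ℂ) (hM : M.IsHermitian) :
    Multiset.map (singVals M) Finset.univ.val =
      Multiset.map (fun i => |hM.eigenvalues i|) Finset.univ.val := by
  have hsq : Mᴴ * M = cfc (fun x : ℝ => x ^ 2) M := by
    rw [cfc_pow_id (R := ℝ) M 2 hM.isSelfAdjoint, hM.eq, sq]
  have h2 : (Mᴴ * M).charpoly.roots =
      Multiset.map (fun i => (((hM.eigenvalues i) ^ 2 : ℝ) : ℂ)) Finset.univ.val := by
    have h0 : (Mᴴ * M).charpoly =
        ∏ i, (Polynomial.X - Polynomial.C ((((hM.eigenvalues i) ^ 2 : ℝ) : ℂ))) := by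
      rw [hsq, hM.charpoly_cfc_eq]
      rfl
    rw [h0, Polynomial.roots_prod]
    · simp only [Polynomial.roots_X_sub_C]
      exact Multiset.bind_singleton _ _
    · rw [Finset.prod_ne_zero_iff]
      intro i _
      exact Polynomial.X_sub_C_ne_zero _
  have h1 := (isHermitian_conjTranspose_mul_self M).roots_charpoly_eq_eigenvalues
  rw [h2] at h1
  have h3 := congrArg (Multiset.map (fun z : ℂ => Real.sqrt z.re)) h1
  rw [Multiset.map_map, Multiset.map_map] at h3
  have e1 : (fun z : ℂ => Real.sqrt z.re) ∘ (fun i => (((hM.eigenvalues i) ^ 2 : ℝ) : ℂ)) =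
      fun i => |hM.eigenvalues i| := by
    funext i
    simp only [Function.comp_apply, Complex.ofReal_re]
    exact Real.sqrt_sq_eq_abs _
  have e2 : (fun z : ℂ => Real.sqrt z.re) ∘
      (RCLike.ofReal ∘ (isHermitian_conjTranspose_mul_self M).eigenvalues : Fin n → ℂ) =
      singVals M := by
    funext i
    simp [singVals]
  rw [e1] at h3
  rw [h3]
  exact congrArg (fun f => Multiset.map f Finset.univ.val) e2.symm

theorem schatten_hermitian {n : ℕ} (q : ℝ≥0∞) (hq : 1 ≤ q) (M : Matrix (Fin n) (Fin n) ℂ)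
    (hM : M.IsHermitian) :
    schatten q M = ‖(WithLp.toLp q (fun i => |hM.eigenvalues i|) : PiLp q (fun _ : Fin n => ℝ))‖ :=
  norm_eq_of_multiset q hq _ _ (singVals_multiset M hM)

/-- monotonicity of the l_q norm -/
theorem norm_toLp_mono {n : ℕ} (q : ℝ≥0∞) (hq : 1 ≤ q) (f g : Fin n → ℝ)
    (h : ∀ i, |f i| ≤ |g i|) :
    ‖(WithLp.toLp q f : PiLp q (fun _ : Fin n => ℝ))‖ ≤
      ‖(WithLp.toLp q g : PiLp q (fun _ : Fin n => ℝ))‖ := by
  rcases eq_or_ne q ∞ with rfl | hqt
  · rw [PiLp.norm_eq_ciSup, PiLp.norm_eq_ciSup]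
    rcases isEmpty_or_nonempty (Fin n) with hn | hn
    · simp
    · exact ciSup_mono (Set.finite_range _).bddAbove (fun i => h i)
  · have hq0 : 0 < q.toReal := ENNReal.toReal_pos (by positivity) hqt
    rw [PiLp.norm_eq_sum hq0, PiLp.norm_eq_sum hq0]
    gcongr with i _
    exact h i

end Pool.Agent.N95.PM
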