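import Mathlib
import Pool.Agent.N95.PM.Basic

set_option autoImplicit false

open Matrix
open scoped ENNReal BigOperators ComplexOrder

namespace Pool.Agent.N95.PM

variable {n : ℕ}

/-- diagonal of `M` in the orthonormal basis given by the columns of `V` -/
noncomputable def dg (V M : Matrix (Fin n) (Fin n) ℂ) : Fin n → ℝ := fun i => ((Vᴴ * M * V) i i).re

theorem dg_add (V M N : Matrix (Fin n) (Fin n) ℂ) : dg V (M + N) = dg V M + dg V N := by
  funext i
  simp [dg, Matrix.mul_add, Matrix.add_mul]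

theorem dg_sub (V M N : Matrix (Fin n) (Fin n) ℂ) : dg V (M - N) = dg V M - dg V N := by
  funext i
  simp [dg, Matrix.mul_sub, Matrix.sub_mul]

theorem dg_smul (V M : Matrix (Fin n) (Fin n) ℂ) (c : ℝ) : dg V (c • M) = c • dg V M := by
  funext i
  simp [dg]

theorem conj_diag_entry (G : Matrix (Fin n) (Fin n) ℂ) (l : Fin n → ℝ) (i : Fin n) :
    ((Gᴴ * diagonal (fun j => ((l j : ℝ) : ℂ)) * G) i i).re = ∑ j, l j * ‖G j i‖ ^ 2 := by
  rw [Matrix.mul_apply]
  rw [Complex.re_sum]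
  refine Finset.sum_congr rfl (fun j _ => ?_)
  rw [Matrix.mul_diagonal, Matrix.conjTranspose_apply]
  have : star (G j i) * ((l j : ℝ) : ℂ) * G j i = ((l j * ‖G j i‖ ^ 2 : ℝ) : ℂ) := by
    have h := Complex.conj_mul' (G j i)
    rw [show star (G j i) = (starRingEnd ℂ) (G j i) from rfl]
    push_cast
    rw [← h]
    ring
  rw [this, Complex.ofReal_re]

theorem unitary_col (G : Matrix (Fin n) (Fin n) ℂ) (hG : Gᴴ * G = 1) (i : Fin n) :
    ∑ j, ‖G j i‖ ^ 2 = 1 := by
  have h := conj_diag_entry G (fun _ => 1) i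
  simp only [Complex.ofReal_one, one_mul] at h
  rw [← h]
  have : (diagonal (fun _ : Fin n => (1 : ℂ))) = 1 := Matrix.diagonal_one
  rw [this, Matrix.mul_one, hG]
  simp

theorem unitary_row (G : Matrix (Fin n) (Fin n) ℂ) (hG : G * Gᴴ = 1) (j : Fin n) :
    ∑ i, ‖G j i‖ ^ 2 = 1 := by
  have h := unitary_col Gᴴ (by simpa using hG) j
  rw [← h]
  refine Finset.sum_congr rfl (fun i _ => ?_)
  rw [Matrix.conjTranspose_apply, norm_star]

/-- doubly stochastic averaging does not increase the l_q norm -/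
theorem norm_stochastic (q : ℝ≥0∞) (hq : 1 ≤ q) (P : Fin n → Fin n → ℝ) (l : Fin n → ℝ)
    (hP : ∀ i j, 0 ≤ P i j) (h1 : ∀ i, ∑ j, P i j = 1) (h2 : ∀ j, ∑ i, P i j = 1) :
    ‖(WithLp.toLp q (fun i => ∑ j, l j * P i j) : PiLp q (fun _ : Fin n => ℝ))‖ ≤
      ‖(WithLp.toLp q l : PiLp q (fun _ : Fin n => ℝ))‖ := by
  rcases eq_or_ne q ∞ with rfl | hqt
  · rw [PiLp.norm_eq_ciSup, PiLp.norm_eq_ciSup]
    rcases isEmpty_or_nonempty (Fin n) with hn | hn
    · simp
    · refine ciSup_le (fun i => ?_)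
      have hb : ∀ j, |l j| ≤ ⨆ i, ‖(WithLp.toLp ∞ l : PiLp ∞ (fun _ : Fin n => ℝ)) i‖ := by
        intro j
        exact le_ciSup (f := fun i => ‖(WithLp.toLp ∞ l : PiLp ∞ (fun _ : Fin n => ℝ)) i‖)
          (Set.finite_range _).bddAbove j
      set B := ⨆ i, ‖(WithLp.toLp ∞ l : PiLp ∞ (fun _ : Fin n => ℝ)) i‖
      calc |∑ j, l j * P i j| ≤ ∑ j, |l j * P i j| := Finset.abs_sum_le_sum_abs _ _
        _ ≤ ∑ j, B * P i j := by
            refine Finset.sum_le_sum (fun j _ => ?_)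
            rw [abs_mul, abs_of_nonneg (hP i j)]
            exact mul_le_mul_of_nonneg_right (hb j) (hP i j)
        _ = B := by rw [← Finset.mul_sum, h1, mul_one]
  · have hq0 : 0 < q.toReal := ENNReal.toReal_pos (by positivity) hqt
    have hq1 : 1 ≤ q.toReal := by
      have := ENNReal.toReal_mono hqt hq
      simpa using this
    rw [PiLp.norm_eq_sum hq0, PiLp.norm_eq_sum hq0]
    refine Real.rpow_le_rpow (Finset.sum_nonneg (fun i _ => by positivity)) ?_ (by positivity)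
    have key : ∀ i, |∑ j, l j * P i j| ^ q.toReal ≤ ∑ j, P i j * |l j| ^ q.toReal := by
      intro i
      have ha : |∑ j, l j * P i j| ≤ ∑ j, P i j * |l j| := by
        refine (Finset.abs_sum_le_sum_abs _ _).trans (le_of_eq ?_)
        refine Finset.sum_congr rfl (fun j _ => ?_)
        rw [abs_mul, abs_of_nonneg (hP i j), mul_comm]
      refine (Real.rpow_le_rpow (abs_nonneg _) ha hq0.le).trans ?_
      exact Real.rpow_arith_mean_le_arith_mean_rpow Finset.univ (fun j => P i j) (fun j => |l j|)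
        (fun j _ => hP i j) (h1 i) (fun j _ => abs_nonneg _) hq1
    calc ∑ i, |∑ j, l j * P i j| ^ q.toReal ≤ ∑ i, ∑ j, P i j * |l j| ^ q.toReal :=
          Finset.sum_le_sum (fun i _ => key i)
      _ = ∑ j, ∑ i, P i j * |l j| ^ q.toReal := Finset.sum_comm
      _ = ∑ j, |l j| ^ q.toReal := by
          refine Finset.sum_congr rfl (fun j _ => ?_)
          rw [← Finset.sum_mul, h2, one_mul]

theorem spectral' (M : Matrix (Fin n) (Fin n) ℂ) (hM : M.IsHermitian) :
    M = (hM.eigenvectorUnitary : Matrix (Fin n) (Fin n) ℂ) *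
      diagonal (fun j => ((hM.eigenvalues j : ℝ) : ℂ)) *
      (hM.eigenvectorUnitary : Matrix (Fin n) (Fin n) ℂ)ᴴ := by
  conv_lhs => rw [hM.spectral_theorem, Unitary.conjStarAlgAut_apply]
  rfl

theorem eigU_left (M : Matrix (Fin n) (Fin n) ℂ) (hM : M.IsHermitian) :
    (hM.eigenvectorUnitary : Matrix (Fin n) (Fin n) ℂ)ᴴ *
      (hM.eigenvectorUnitary : Matrix (Fin n) (Fin n) ℂ) = 1 := by
  have := hM.eigenvectorUnitary.2
  exact (Matrix.mem_unitaryGroup_iff').1 this

theorem eigU_right (M : Matrix (Fin n) (Fin n) ℂ) (hM : M.IsHermitian) :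
    (hM.eigenvectorUnitary : Matrix (Fin n) (Fin n) ℂ) *
      (hM.eigenvectorUnitary : Matrix (Fin n) (Fin n) ℂ)ᴴ = 1 := by
  have := hM.eigenvectorUnitary.2
  exact (Matrix.mem_unitaryGroup_iff).1 this

/-- pinching inequality -/
theorem pinch (q : ℝ≥0∞) (hq : 1 ≤ q) (M : Matrix (Fin n) (Fin n) ℂ) (hM : M.IsHermitian)
    (V : Matrix (Fin n) (Fin n) ℂ) (hV : Vᴴ * V = 1) :
    ‖(WithLp.toLp q (dg V M) : PiLp q (fun _ : Fin n => ℝ))‖ ≤ schatten q M := by
  have hV' : V * Vᴴ = 1 := mul_eq_one_comm.1 hV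
  set U := (hM.eigenvectorUnitary : Matrix (Fin n) (Fin n) ℂ) with hU
  have hU1 := eigU_left M hM
  have hU2 := eigU_right M hM
  rw [← hU] at hU1 hU2
  set G := Uᴴ * V with hG
  have hGG : Gᴴ * G = 1 := by
    rw [hG, Matrix.conjTranspose_mul, Matrix.conjTranspose_conjTranspose]
    calc Vᴴ * U * (Uᴴ * V) = Vᴴ * (U * Uᴴ) * V := by simp only [Matrix.mul_assoc]
      _ = 1 := by rw [hU2, Matrix.mul_one, hV]
  have hGG' : G * Gᴴ = 1 := mul_eq_one_comm.1 hGG
  have e : dg V M = fun i => ∑ j, hM.eigenvalues j * ‖G j i‖ ^ 2 := by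
    funext i
    rw [← conj_diag_entry]
    unfold dg
    congr 2
    conv_lhs => rw [spectral' M hM]
    rw [hG, Matrix.conjTranspose_mul, Matrix.conjTranspose_conjTranspose]
    simp only [Matrix.mul_assoc]
    rfl
  rw [e, schatten_hermitian q hq M hM]
  refine (norm_stochastic q hq (fun i j => ‖G j i‖ ^ 2) hM.eigenvalues (fun i j => by positivity)
    (fun i => unitary_col G hGG i) (fun j => unitary_row G hGG' j)).trans ?_
  exact norm_toLp_mono q hq _ _ (fun i => by rw [abs_abs])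

/-- in its eigenbasis the diagonal realises the Schatten norm -/
theorem schatten_eq_dg (q : ℝ≥0∞) (hq : 1 ≤ q) (M : Matrix (Fin n) (Fin n) ℂ)
    (hM : M.IsHermitian) :
    schatten q M = ‖(WithLp.toLp q (dg (hM.eigenvectorUnitary : Matrix (Fin n) (Fin n) ℂ) M) :
      PiLp q (fun _ : Fin n => ℝ))‖ := by
  have e : dg (hM.eigenvectorUnitary : Matrix (Fin n) (Fin n) ℂ) M = hM.eigenvalues := by
    have hsp := spectral' M hM
    have hU1 := eigU_left M hM
    generalize (hM.eigenvectorUnitary : Matrix (Fin n) (Fin n) ℂ) = U at *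
    generalize hM.eigenvalues = l at *
    funext i
    unfold dg
    rw [hsp]
    have : Uᴴ * (U * diagonal (fun j => ((l j : ℝ) : ℂ)) * Uᴴ) * U =
        (Uᴴ * U) * diagonal (fun j => ((l j : ℝ) : ℂ)) * (Uᴴ * U) := by
      simp only [Matrix.mul_assoc]
    rw [this, hU1, Matrix.one_mul, Matrix.mul_one, Matrix.diagonal_apply_eq, Complex.ofReal_re]
  rw [e, schatten_hermitian q hq M hM]
  apply le_antisymm
  · exact norm_toLp_mono q hq _ _ (fun i => by rw [abs_abs])
  · exact norm_toLp_mono q hq _ _ (fun i => by rw [abs_abs])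

/-- triangle inequality for Hermitian matrices -/
theorem schatten_add_le (q : ℝ≥0∞) (hq : 1 ≤ q) (M N : Matrix (Fin n) (Fin n) ℂ)
    (hM : M.IsHermitian) (hN : N.IsHermitian) :
    schatten q (M + N) ≤ schatten q M + schatten q N := by
  have : Fact (1 ≤ q) := ⟨hq⟩
  have hMN : (M + N).IsHermitian := hM.add hN
  rw [schatten_eq_dg q hq (M + N) hMN, dg_add]
  set V := (hMN.eigenvectorUnitary : Matrix (Fin n) (Fin n) ℂ)
  have hV : Vᴴ * V = 1 := eigU_left _ hMN
  have : (WithLp.toLp q (dg V M + dg V N) : PiLp q (fun _ : Fin n => ℝ)) =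
      WithLp.toLp q (dg V M) + WithLp.toLp q (dg V N) := rfl
  rw [this]
  exact (norm_add_le _ _).trans (add_le_add (pinch q hq M hM V hV) (pinch q hq N hN V hV))

theorem schatten_smul (q : ℝ≥0∞) (hq : 1 ≤ q) (M : Matrix (Fin n) (Fin n) ℂ)
    (hM : M.IsHermitian) (c : ℝ) (hc : 0 ≤ c) :
    schatten q (c • M) ≤ c * schatten q M := by
  have : Fact (1 ≤ q) := ⟨hq⟩
  have hcM : (c • M).IsHermitian := by
    rw [Matrix.IsHermitian, Matrix.conjTranspose_smul, hM.eq]
    simp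
  rw [schatten_eq_dg q hq (c • M) hcM, dg_smul]
  set V := (hcM.eigenvectorUnitary : Matrix (Fin n) (Fin n) ℂ)
  have hV : Vᴴ * V = 1 := eigU_left _ hcM
  have : (WithLp.toLp q (c • dg V M) : PiLp q (fun _ : Fin n => ℝ)) =
      c • WithLp.toLp q (dg V M) := rfl
  rw [this, norm_smul, Real.norm_of_nonneg hc]
  exact mul_le_mul_of_nonneg_left (pinch q hq M hM V hV) hc

end Pool.Agent.N95.PM
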