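import Mathlib
import Pool.Agent.N95.PM.Pinch

set_option autoImplicit false

open Matrix
open scoped ENNReal BigOperators ComplexOrder

namespace Pool.Agent.N95.PM

variable {n : ℕ}

theorem spec_pos (X : Matrix (Fin n) (Fin n) ℂ) (hX : X.PosDef) : ∀ x ∈ spectrum ℝ X, 0 < x := by
  intro x hx
  rw [hX.1.spectrum_real_eq_range_eigenvalues] at hx
  obtain ⟨i, rfl⟩ := hx
  exact hX.eigenvalues_pos i

theorem cont_spec (f : ℝ → ℝ) (X : Matrix (Fin n) (Fin n) ℂ) : ContinuousOn f (spectrum ℝ X) :=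
  (Matrix.finite_real_spectrum (A := X)).continuousOn f

theorem mpow_isHermitian (X : Matrix (Fin n) (Fin n) ℂ) (s : ℝ) : (mpow X s).IsHermitian :=
  (cfc_predicate (R := ℝ) (p := IsSelfAdjoint) (fun x : ℝ => x ^ s) X).isHermitian

theorem mpow_add (X : Matrix (Fin n) (Fin n) ℂ) (hX : X.PosDef) (a b : ℝ) :
    mpow X (a + b) = mpow X a * mpow X b := by
  unfold mpow
  rw [← cfc_mul (fun x : ℝ => x ^ a) (fun x : ℝ => x ^ b) X (cont_spec _ _) (cont_spec _ _)]
  exact cfc_congr (fun x hx => Real.rpow_add (spec_pos X hX x hx) a b)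

theorem mpow_one (X : Matrix (Fin n) (Fin n) ℂ) (hX : X.PosDef) : mpow X 1 = X := by
  unfold mpow
  conv_rhs => rw [← cfc_id ℝ X hX.1.isSelfAdjoint]
  exact cfc_congr (fun x _ => Real.rpow_one x)

theorem mpow_two (X : Matrix (Fin n) (Fin n) ℂ) (hX : X.IsHermitian) : mpow X 2 = X * X := by
  unfold mpow
  have : (fun x : ℝ => x ^ (2 : ℝ)) = fun x : ℝ => x ^ 2 := by
    funext x
    exact Real.rpow_two x
  rw [this, cfc_pow_id (R := ℝ) X 2 hX.isSelfAdjoint, sq]

theorem mpow_mpow (X : Matrix (Fin n) (Fin n) ℂ) (hX : X.PosDef) (a b : ℝ) :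
    mpow (mpow X a) b = mpow X (a * b) := by
  unfold mpow
  rw [← cfc_comp (fun x : ℝ => x ^ b) (fun x : ℝ => x ^ a) X hX.1.isSelfAdjoint
    (((Matrix.finite_real_spectrum (A := X)).image _).continuousOn _) (cont_spec _ _)]
  exact cfc_congr (fun x hx => (Real.rpow_mul (spec_pos X hX x hx).le a b).symm)

theorem mpow_posSemidef (X : Matrix (Fin n) (Fin n) ℂ) (hX : X.PosDef) (s : ℝ) :
    (mpow X s).PosSemidef := by
  have h : mpow X s = (mpow X (s / 2))ᴴ * mpow X (s / 2) := by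
    rw [(mpow_isHermitian X (s / 2)).eq, ← mpow_add X hX]
    congr 1
    ring
  rw [h]
  exact posSemidef_conjTranspose_mul_self _

theorem powerMean_one (p : ℝ) (hp : p ≠ 0) (X Y : Matrix (Fin n) (Fin n) ℂ) (hX : X.PosDef) :
    powerMean p 1 X Y = X := by
  unfold powerMean
  rw [one_smul, sub_self, zero_smul, add_zero, mpow_mpow X hX, mul_one_div_cancel hp, mpow_one X hX]

theorem powerMean_zero (p : ℝ) (hp : p ≠ 0) (X Y : Matrix (Fin n) (Fin n) ℂ) (hY : Y.PosDef) :
    powerMean p 0 X Y = Y := by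
  unfold powerMean
  rw [zero_smul, sub_zero, one_smul, zero_add, mpow_mpow Y hY, mul_one_div_cancel hp, mpow_one Y hY]

theorem dg_nonneg (V A : Matrix (Fin n) (Fin n) ℂ) (hA : A.PosSemidef) (i : Fin n) :
    0 ≤ dg V A i := by
  have h : (Vᴴ * A * V).PosSemidef := hA.conjTranspose_mul_mul_same V
  have := h.diag_nonneg (i := i)
  exact (Complex.le_def.1 this).1

/-- Schatten norm of a unitarily diagonalised matrix -/
theorem schatten_le_diag (q : ℝ≥0∞) (hq : 1 ≤ q) (V : Matrix (Fin n) (Fin n) ℂ)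
    (hV : Vᴴ * V = 1) (d : Fin n → ℝ) :
    schatten q (V * diagonal (fun j => ((d j : ℝ) : ℂ)) * Vᴴ) ≤
      ‖(WithLp.toLp q d : PiLp q (fun _ : Fin n => ℝ))‖ := by
  have hM : (V * diagonal (fun j => ((d j : ℝ) : ℂ)) * Vᴴ).IsHermitian := by
    rw [Matrix.IsHermitian, Matrix.conjTranspose_mul, Matrix.conjTranspose_mul,
      Matrix.conjTranspose_conjTranspose, Matrix.diagonal_conjTranspose, ← Matrix.mul_assoc]
    congr 3
    funext j
    exact Complex.conj_ofReal _
  rw [schatten_eq_dg q hq _ hM]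
  have hU1 := eigU_left _ hM
  generalize (hM.eigenvectorUnitary : Matrix (Fin n) (Fin n) ℂ) = U at *
  have hU2 : U * Uᴴ = 1 := mul_eq_one_comm.1 hU1
  have hV' : V * Vᴴ = 1 := mul_eq_one_comm.1 hV
  set G := Vᴴ * U with hG
  have hGG : Gᴴ * G = 1 := by
    rw [hG, Matrix.conjTranspose_mul, Matrix.conjTranspose_conjTranspose]
    calc Uᴴ * V * (Vᴴ * U) = Uᴴ * (V * Vᴴ) * U := by simp only [Matrix.mul_assoc]
      _ = 1 := by rw [hV', Matrix.mul_one, hU1]
  have hGG' : G * Gᴴ = 1 := mul_eq_one_comm.1 hGG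
  have e : dg U (V * diagonal (fun j => ((d j : ℝ) : ℂ)) * Vᴴ) =
      fun i => ∑ j, d j * ‖G j i‖ ^ 2 := by
    funext i
    rw [← conj_diag_entry]
    unfold dg
    congr 2
    rw [hG, Matrix.conjTranspose_mul, Matrix.conjTranspose_conjTranspose]
    simp only [Matrix.mul_assoc]
  rw [e]
  exact norm_stochastic q hq (fun i j => ‖G j i‖ ^ 2) d (fun i j => by positivity)
    (fun i => unitary_col G hGG i) (fun j => unitary_row G hGG' j)

/-- `‖(A-B)²‖ ≤ ‖A² - B²‖` in every Schatten norm -/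
theorem bks (q : ℝ≥0∞) (hq : 1 ≤ q) (A B : Matrix (Fin n) (Fin n) ℂ) (hA : A.PosSemidef)
    (hB : B.PosSemidef) :
    schatten q (-((A - B) * (A - B))) ≤ schatten q (A * A - B * B) := by
  have hH : (A - B).IsHermitian := hA.1.sub hB.1
  have hWH : (A * A - B * B).IsHermitian := by
    have h1 : (A * A).IsHermitian := by
      rw [Matrix.IsHermitian, Matrix.conjTranspose_mul, hA.1.eq]
    have h2 : (B * B).IsHermitian := by
      rw [Matrix.IsHermitian, Matrix.conjTranspose_mul, hB.1.eq]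
    exact h1.sub h2
  have hsp := spectral' (A - B) hH
  have hV := eigU_left (A - B) hH
  generalize (hH.eigenvectorUnitary : Matrix (Fin n) (Fin n) ℂ) = V at *
  generalize hH.eigenvalues = h at *
  have hV' : V * Vᴴ = 1 := mul_eq_one_comm.1 hV
  set D : Matrix (Fin n) (Fin n) ℂ := diagonal (fun j => ((h j : ℝ) : ℂ)) with hD
  have hHV : Vᴴ * (A - B) * V = D := by
    rw [hsp]
    calc Vᴴ * (V * D * Vᴴ) * V = (Vᴴ * V) * D * (Vᴴ * V) := by simp only [Matrix.mul_assoc]
      _ = D := by rw [hV, Matrix.one_mul, Matrix.mul_one]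
  have e1 : -((A - B) * (A - B)) =
      V * diagonal (fun j => (((-(h j) ^ 2 : ℝ)) : ℂ)) * Vᴴ := by
    have : (A - B) * (A - B) = V * (D * D) * Vᴴ := by
      rw [hsp]
      calc V * D * Vᴴ * (V * D * Vᴴ) = V * D * (Vᴴ * V) * D * Vᴴ := by
            simp only [Matrix.mul_assoc]
        _ = V * (D * D) * Vᴴ := by rw [hV, Matrix.mul_one]; simp only [Matrix.mul_assoc]
    rw [this, hD, Matrix.diagonal_mul_diagonal, ← Matrix.neg_mul, ← Matrix.mul_neg]
    congr 2
    rw [Matrix.diagonal_neg]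
    congr 1
    funext j
    push_cast
    ring
  rw [e1]
  refine (schatten_le_diag q hq V hV _).trans ?_
  refine le_trans ?_ (pinch q hq (A * A - B * B) hWH V hV)
  apply norm_toLp_mono q hq
  intro j
  have hW : A * A - B * B = (2 : ℂ)⁻¹ • ((A + B) * (A - B) + (A - B) * (A + B)) := by
    have : (A + B) * (A - B) + (A - B) * (A + B) = (2 : ℂ) • (A * A - B * B) := by
      rw [two_smul]
      noncomm_ring
    rw [this, smul_smul]
    norm_num
  have hdg : dg V (A * A - B * B) j = h j * (dg V A j + dg V B j) := by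
    have hS : Vᴴ * (A * A - B * B) * V = (2 : ℂ)⁻¹ • ((Vᴴ * (A + B) * V) * D +
        D * (Vᴴ * (A + B) * V)) := by
      rw [hW, ← hHV]
      have a1 : Vᴴ * (A + B) * V * (Vᴴ * (A - B) * V) = Vᴴ * ((A + B) * (A - B)) * V := by
        calc Vᴴ * (A + B) * V * (Vᴴ * (A - B) * V) =
            Vᴴ * (A + B) * (V * Vᴴ) * (A - B) * V := by simp only [Matrix.mul_assoc]
          _ = _ := by rw [hV', Matrix.mul_one]; simp only [Matrix.mul_assoc]
      have a2 : Vᴴ * (A - B) * V * (Vᴴ * (A + B) * V) = Vᴴ * ((A - B) * (A + B)) * V := by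
        calc Vᴴ * (A - B) * V * (Vᴴ * (A + B) * V) =
            Vᴴ * (A - B) * (V * Vᴴ) * (A + B) * V := by simp only [Matrix.mul_assoc]
          _ = _ := by rw [hV', Matrix.mul_one]; simp only [Matrix.mul_assoc]
      rw [a1, a2, Matrix.mul_smul, Matrix.smul_mul, Matrix.mul_add, Matrix.add_mul]
    have hent : (Vᴴ * (A * A - B * B) * V) j j = (h j : ℂ) * (Vᴴ * (A + B) * V) j j := by
      rw [hS, Matrix.smul_apply, Matrix.add_apply, hD, Matrix.mul_diagonal, Matrix.diagonal_mul,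
        smul_eq_mul]
      ring
    have hs : (Vᴴ * (A + B) * V) j j = (Vᴴ * A * V) j j + (Vᴴ * B * V) j j := by
      rw [Matrix.mul_add, Matrix.add_mul, Matrix.add_apply]
    unfold dg
    rw [hent, hs, Complex.re_ofReal_mul, Complex.add_re]
  have hdH : dg V A j - dg V B j = h j := by
    have : dg V (A - B) j = h j := by
      unfold dg
      rw [hHV, hD, Matrix.diagonal_apply_eq, Complex.ofReal_re]
    rw [← this, dg_sub]
    rfl
  have hA0 := dg_nonneg V A hA j
  have hB0 := dg_nonneg V B hB j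
  rw [hdg, abs_neg, abs_pow, sq, abs_mul]
  refine mul_le_mul_of_nonneg_left ?_ (abs_nonneg _)
  rw [← hdH, abs_of_nonneg (add_nonneg hA0 hB0)]
  rw [abs_le]
  constructor <;> linarith

/-- core inequality for `p = 1/2` -/
theorem half_core (q : ℝ≥0∞) (hq : 1 ≤ q) (A B : Matrix (Fin n) (Fin n) ℂ) (hA : A.PosSemidef)
    (hB : B.PosSemidef) (s : ℝ) (hs0 : 0 ≤ s) (hs1 : s ≤ 1) :
    schatten q ((s • A + (1 - s) • B) * (s • A + (1 - s) • B) - B * B) ≤
      schatten q (A * A - B * B) := by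
  have hWH : (A * A - B * B).IsHermitian := by
    have h1 : (A * A).IsHermitian := by
      rw [Matrix.IsHermitian, Matrix.conjTranspose_mul, hA.1.eq]
    have h2 : (B * B).IsHermitian := by
      rw [Matrix.IsHermitian, Matrix.conjTranspose_mul, hB.1.eq]
    exact h1.sub h2
  have hHH : (-((A - B) * (A - B))).IsHermitian := by
    rw [Matrix.IsHermitian, Matrix.conjTranspose_neg, Matrix.conjTranspose_mul,
      (hA.1.sub hB.1).eq]
  have e : (s • A + (1 - s) • B) * (s • A + (1 - s) • B) - B * B =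
      s • (A * A - B * B) + (s * (1 - s)) • (-((A - B) * (A - B))) := by
    simp only [Matrix.add_mul, Matrix.mul_add, Matrix.smul_mul, Matrix.mul_smul,
      smul_sub, smul_add, smul_smul, neg_sub, sub_smul, mul_sub,
      sub_mul, mul_one, one_smul]
    module
  rw [e]
  have hsm : ∀ (c : ℝ) (M : Matrix (Fin n) (Fin n) ℂ), M.IsHermitian → (c • M).IsHermitian := by
    intro c M hM
    rw [Matrix.IsHermitian, Matrix.conjTranspose_smul, hM.eq]
    simp
  have h1 := schatten_add_le q hq _ _ (hsm s _ hWH) (hsm (s * (1 - s)) _ hHH)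
  have h2 := schatten_smul q hq _ hWH s hs0
  have h3 := schatten_smul q hq _ hHH (s * (1 - s)) (mul_nonneg hs0 (by linarith))
  have h4 := bks q hq A B hA hB
  have h5 : 0 ≤ schatten q (A * A - B * B) := by
    have : Fact (1 ≤ q) := ⟨hq⟩
    exact norm_nonneg _
  have h6 : s * (1 - s) * schatten q (-((A - B) * (A - B))) ≤
      s * (1 - s) * schatten q (A * A - B * B) :=
    mul_le_mul_of_nonneg_left h4 (mul_nonneg hs0 (by linarith))
  nlinarith [mul_nonneg hs0 h5, sq_nonneg (1 - s), mul_nonneg (sq_nonneg (1 - s)) h5]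

end Pool.Agent.N95.PM
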