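import Mathlib
import Pool.Agent.N95.PM.Half

set_option autoImplicit false

open Matrix
open scoped ENNReal BigOperators ComplexOrder

namespace Pool.Agent.N95.PM

/-- the positive case -/
theorem half_monotonic (q : ℝ≥0∞) (hq : 1 ≤ q) : PowerMeanMonotonic (1 / 2) q := by
  intro n X Y hX hY s hs t ht hst
  simp only
  have hpm : ∀ t : ℝ, powerMean (1 / 2) t X Y =
      (t • mpow X (1 / 2) + (1 - t) • mpow Y (1 / 2)) *
        (t • mpow X (1 / 2) + (1 - t) • mpow Y (1 / 2)) := by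
    intro t
    unfold powerMean
    rw [show (1 : ℝ) / (1 / 2) = 2 by norm_num, mpow_two]
    have hsm : ∀ (c : ℝ) (M : Matrix (Fin n) (Fin n) ℂ), M.IsHermitian → (c • M).IsHermitian := by
      intro c M hM
      rw [Matrix.IsHermitian, Matrix.conjTranspose_smul, hM.eq]
      simp
    exact (hsm _ _ (mpow_isHermitian X _)).add (hsm _ _ (mpow_isHermitian Y _))
  have hYY : mpow Y (1 / 2) * mpow Y (1 / 2) = Y := by
    rw [← mpow_add Y hY, show (1 : ℝ) / 2 + 1 / 2 = 1 by norm_num, mpow_one Y hY]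
  have hA := mpow_posSemidef X hX (1 / 2)
  have hB := mpow_posSemidef Y hY (1 / 2)
  rcases eq_or_lt_of_le ht.1 with h0 | h0
  · have hs0 : s = t := le_antisymm hst (by rw [← h0]; exact hs.1)
    rw [hs0]
  · rw [hpm s, hpm t]
    clear hpm
    generalize mpow X (1 / 2) = A at *
    generalize mpow Y (1 / 2) = B at *
    rw [← hYY]
    have hT : (t • A + (1 - t) • B).PosSemidef :=
      (hA.smul ht.1).add (hB.smul (by linarith [ht.2]))
    have hcore := half_core q hq (t • A + (1 - t) • B) B hT hB (s / t) (div_nonneg hs.1 h0.le)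
      ((div_le_one h0).2 hst)
    have e : (s / t) • (t • A + (1 - t) • B) + (1 - s / t) • B = s • A + (1 - s) • B := by
      rw [smul_add, smul_smul, smul_smul, add_assoc, ← add_smul]
      congr 2
      · field_simp
      · field_simp
        ring
    rw [e] at hcore
    exact hcore

variable {n : ℕ}

/-- the eigen-representation of all the functions of a Hermitian matrix in a fixed basis -/
theorem dg_cfc (M : Matrix (Fin n) (Fin n) ℂ) (hM : M.IsHermitian)
    (V : Matrix (Fin n) (Fin n) ℂ) (hV : Vᴴ * V = 1) :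
    ∃ P : Fin n → Fin n → ℝ, (∀ i j, 0 ≤ P i j) ∧ (∀ i, ∑ j, P i j = 1) ∧
      (∀ j, ∑ i, P i j = 1) ∧ (∀ i, dg V M i = ∑ j, hM.eigenvalues j * P i j) ∧
      ∀ f : ℝ → ℝ, ∀ i, dg V (cfc f M) i = ∑ j, f (hM.eigenvalues j) * P i j := by
  have hV' : V * Vᴴ = 1 := mul_eq_one_comm.1 hV
  have hsp := spectral' M hM
  have hU1 := eigU_left M hM
  have hcf : ∀ f : ℝ → ℝ, cfc f M = (hM.eigenvectorUnitary : Matrix (Fin n) (Fin n) ℂ) *
      diagonal (fun j => ((f (hM.eigenvalues j) : ℝ) : ℂ)) *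
      (hM.eigenvectorUnitary : Matrix (Fin n) (Fin n) ℂ)ᴴ := by
    intro f
    rw [hM.cfc_eq f]
    unfold IsHermitian.cfc
    rw [Unitary.conjStarAlgAut_apply]
    rfl
  generalize (hM.eigenvectorUnitary : Matrix (Fin n) (Fin n) ℂ) = U at *
  generalize hM.eigenvalues = l at *
  have hU2 : U * Uᴴ = 1 := mul_eq_one_comm.1 hU1
  set G := Uᴴ * V with hG
  have hGG : Gᴴ * G = 1 := by
    rw [hG, Matrix.conjTranspose_mul, Matrix.conjTranspose_conjTranspose]
    calc Vᴴ * U * (Uᴴ * V) = Vᴴ * (U * Uᴴ) * V := by simp only [Matrix.mul_assoc]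
      _ = 1 := by rw [hU2, Matrix.mul_one, hV]
  have hGG' : G * Gᴴ = 1 := mul_eq_one_comm.1 hGG
  refine ⟨fun i j => ‖G j i‖ ^ 2, fun i j => by positivity, fun i => unitary_col G hGG i,
    fun j => unitary_row G hGG' j, ?_, ?_⟩
  · intro i
    rw [← conj_diag_entry]
    unfold dg
    congr 2
    rw [hsp, hG, Matrix.conjTranspose_mul, Matrix.conjTranspose_conjTranspose]
    simp only [Matrix.mul_assoc]
  · intro f i
    rw [← conj_diag_entry G (fun j => f (l j)) i]
    unfold dg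
    congr 2
    rw [hcf, hG, Matrix.conjTranspose_mul, Matrix.conjTranspose_conjTranspose]
    simp only [Matrix.mul_assoc]

theorem dg_one (V : Matrix (Fin n) (Fin n) ℂ) (hV : Vᴴ * V = 1) (i : Fin n) : dg V 1 i = 1 := by
  unfold dg
  rw [Matrix.mul_one, hV]
  simp

/-- eigenvalue lower bound -/
theorem eig_ge (M : Matrix (Fin n) (Fin n) ℂ) (hM : M.IsHermitian) (c : ℝ)
    (h : (M - c • (1 : Matrix (Fin n) (Fin n) ℂ)).PosSemidef) (i : Fin n) :
    c ≤ hM.eigenvalues i := by
  have hU1 := eigU_left M hM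
  have e : dg (hM.eigenvectorUnitary : Matrix (Fin n) (Fin n) ℂ) M i = hM.eigenvalues i := by
    have hsp := spectral' M hM
    generalize (hM.eigenvectorUnitary : Matrix (Fin n) (Fin n) ℂ) = U at *
    generalize hM.eigenvalues = l at *
    unfold dg
    rw [hsp]
    have : Uᴴ * (U * diagonal (fun j => ((l j : ℝ) : ℂ)) * Uᴴ) * U =
        (Uᴴ * U) * diagonal (fun j => ((l j : ℝ) : ℂ)) * (Uᴴ * U) := by
      simp only [Matrix.mul_assoc]
    rw [this, hU1, Matrix.one_mul, Matrix.mul_one, Matrix.diagonal_apply_eq, Complex.ofReal_re]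
  have h2 := dg_nonneg (hM.eigenvectorUnitary : Matrix (Fin n) (Fin n) ℂ) _ h i
  rw [dg_sub, dg_smul] at h2
  simp only [Pi.sub_apply, Pi.smul_apply, smul_eq_mul, e, dg_one _ hU1] at h2
  linarith

theorem eig_eq_dg (M : Matrix (Fin n) (Fin n) ℂ) (hM : M.IsHermitian) (i : Fin n) :
    dg (hM.eigenvectorUnitary : Matrix (Fin n) (Fin n) ℂ) M i = hM.eigenvalues i := by
  have hU1 := eigU_left M hM
  have hsp := spectral' M hM
  generalize (hM.eigenvectorUnitary : Matrix (Fin n) (Fin n) ℂ) = U at *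
  generalize hM.eigenvalues = l at *
  unfold dg
  rw [hsp]
  have : Uᴴ * (U * diagonal (fun j => ((l j : ℝ) : ℂ)) * Uᴴ) * U =
      (Uᴴ * U) * diagonal (fun j => ((l j : ℝ) : ℂ)) * (Uᴴ * U) := by
    simp only [Matrix.mul_assoc]
  rw [this, hU1, Matrix.one_mul, Matrix.mul_one, Matrix.diagonal_apply_eq, Complex.ofReal_re]

/-- real symmetric `2 × 2` matrices -/
noncomputable def R2 (a b d : ℝ) : Matrix (Fin 2) (Fin 2) ℂ := !![(a : ℂ), (b : ℂ); (b : ℂ), (d : ℂ)]

theorem R2_herm (a b d : ℝ) : (R2 a b d).IsHermitian := by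
  ext i j
  fin_cases i <;> fin_cases j <;> simp [R2, Matrix.conjTranspose_apply]

theorem R2_quad (a b d : ℝ) (x : Fin 2 → ℂ) :
    star x ⬝ᵥ (R2 a b d *ᵥ x) =
      ((a * ‖x 0‖ ^ 2 + 2 * b * ((x 0).re * (x 1).re + (x 0).im * (x 1).im) +
        d * ‖x 1‖ ^ 2 : ℝ) : ℂ) := by
  simp only [dotProduct, Matrix.mulVec, R2, Fin.sum_univ_two, Pi.star_apply, Matrix.of_apply,
    Matrix.cons_val', Matrix.cons_val_zero, Matrix.cons_val_one, Matrix.cons_val_fin_one]
  rw [Complex.sq_norm, Complex.sq_norm, Complex.normSq_apply, Complex.normSq_apply]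
  apply Complex.ext
  · simp
    ring
  · simp
    ring

theorem R2_psd (a b d : ℝ) (ha : 0 ≤ a) (hd : 0 ≤ d) (h : b ^ 2 ≤ a * d) :
    (R2 a b d).PosSemidef := by
  refine Matrix.PosSemidef.of_dotProduct_mulVec_nonneg (R2_herm a b d) (fun x => ?_)
  rw [R2_quad]
  rw [Complex.sq_norm, Complex.sq_norm, Complex.normSq_apply, Complex.normSq_apply]
  have key : ∀ u v : ℝ, 0 ≤ a * u ^ 2 + 2 * b * (u * v) + d * v ^ 2 := by
    intro u v
    rcases eq_or_lt_of_le ha with h0 | h0
    · have hb : b = 0 := by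
        rw [← h0] at h
        nlinarith
      rw [← h0, hb]
      have := mul_nonneg hd (sq_nonneg v)
      linarith
    · have h1 : 0 ≤ a * (a * u ^ 2 + 2 * b * (u * v) + d * v ^ 2) := by
        have : a * (a * u ^ 2 + 2 * b * (u * v) + d * v ^ 2) =
            (a * u + b * v) ^ 2 + (a * d - b ^ 2) * v ^ 2 := by ring
        rw [this]
        have := mul_nonneg (sub_nonneg.2 h) (sq_nonneg v)
        positivity
      exact nonneg_of_mul_nonneg_right h1 h0
  have h1 := key (x 0).re (x 1).re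
  have h2 := key (x 0).im (x 1).im
  rw [Complex.zero_le_real]
  nlinarith [h1, h2]

theorem R2_pd (a b d : ℝ) (ha : 0 < a) (h : b ^ 2 < a * d) :
    (R2 a b d).PosDef := by
  refine Matrix.PosDef.of_dotProduct_mulVec_pos (R2_herm a b d) (fun x hx => ?_)
  rw [R2_quad]
  rw [Complex.sq_norm, Complex.sq_norm, Complex.normSq_apply, Complex.normSq_apply]
  have id1 : ∀ u v : ℝ, a * (a * u ^ 2 + 2 * b * (u * v) + d * v ^ 2) =
      (a * u + b * v) ^ 2 + (a * d - b ^ 2) * v ^ 2 := by
    intro u v; ring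
  have key : ∀ u v : ℝ, 0 ≤ a * u ^ 2 + 2 * b * (u * v) + d * v ^ 2 := by
    intro u v
    have h1 : 0 ≤ a * (a * u ^ 2 + 2 * b * (u * v) + d * v ^ 2) := by
      rw [id1]
      have := mul_nonneg (sub_nonneg.2 h.le) (sq_nonneg v)
      positivity
    exact nonneg_of_mul_nonneg_right h1 ha
  have key2 : ∀ u v : ℝ, (u ≠ 0 ∨ v ≠ 0) → 0 < a * u ^ 2 + 2 * b * (u * v) + d * v ^ 2 := by
    intro u v huv
    have h1 : 0 < a * (a * u ^ 2 + 2 * b * (u * v) + d * v ^ 2) := by
      rw [id1]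
      by_cases hv : v = 0
      · have hu : u ≠ 0 := by
          rcases huv with h | h
          · exact h
          · exact absurd hv h
        rw [hv]
        have : 0 < (a * u) ^ 2 := by positivity
        simpa using this
      · have h3 : 0 < (a * d - b ^ 2) * v ^ 2 := mul_pos (sub_pos.2 h) (by positivity)
        have := sq_nonneg (a * u + b * v)
        linarith
    exact (mul_pos_iff_of_pos_left ha).1 h1
  have h1 := key (x 0).re (x 1).re
  have h2 := key (x 0).im (x 1).im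
  rw [← Complex.ofReal_zero, Complex.real_lt_real]
  have : ((x 0).re ≠ 0 ∨ (x 1).re ≠ 0) ∨ ((x 0).im ≠ 0 ∨ (x 1).im ≠ 0) := by
    by_contra hcon
    push Not at hcon
    apply hx
    funext i
    fin_cases i
    · exact Complex.ext hcon.1.1 hcon.2.1
    · exact Complex.ext hcon.1.2 hcon.2.2
  rcases this with h3 | h3
  · have := key2 _ _ h3
    nlinarith
  · have := key2 _ _ h3
    nlinarith

end Pool.Agent.N95.PM
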