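import Mathlib
import Pool.Agent.N95.PM.Two

set_option autoImplicit false

open Matrix
open scoped ENNReal BigOperators ComplexOrder

namespace Pool.Agent.N95.PM

theorem cfc_two_point {n : ℕ} (M : Matrix (Fin n) (Fin n) ℂ) (hM : M.IsHermitian) (a b : ℝ)
    (h : M * M = (a + b) • M - (a * b) • (1 : Matrix (Fin n) (Fin n) ℂ)) (f : ℝ → ℝ) :
    cfc f M = ((f a - f b) / (a - b)) • M + (f a - (f a - f b) / (a - b) * a) •
      (1 : Matrix (Fin n) (Fin n) ℂ) := by
  have hspec : ∀ x ∈ spectrum ℝ M, x = a ∨ x = b := by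
    intro x hx
    rw [hM.spectrum_real_eq_range_eigenvalues] at hx
    obtain ⟨i, rfl⟩ := hx
    have hsp := spectral' M hM
    have hU1 := eigU_left M hM
    have hU2 := eigU_right M hM
    generalize (hM.eigenvectorUnitary : Matrix (Fin n) (Fin n) ℂ) = U at *
    generalize hM.eigenvalues = l at *
    have hD : Uᴴ * M * U = diagonal (fun j => ((l j : ℝ) : ℂ)) := by
      rw [hsp]
      have : Uᴴ * (U * diagonal (fun j => ((l j : ℝ) : ℂ)) * Uᴴ) * U =
          (Uᴴ * U) * diagonal (fun j => ((l j : ℝ) : ℂ)) * (Uᴴ * U) := by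
        simp only [Matrix.mul_assoc]
      rw [this, hU1, Matrix.one_mul, Matrix.mul_one]
    have hDD : (Uᴴ * M * U) * (Uᴴ * M * U) = (a + b) • (Uᴴ * M * U) -
        (a * b) • (1 : Matrix (Fin n) (Fin n) ℂ) := by
      have h1 : (Uᴴ * M * U) * (Uᴴ * M * U) = Uᴴ * (M * M) * U := by
        calc (Uᴴ * M * U) * (Uᴴ * M * U) = Uᴴ * M * (U * Uᴴ) * M * U := by
              simp only [Matrix.mul_assoc]
          _ = _ := by rw [hU2, Matrix.mul_one]; simp only [Matrix.mul_assoc]
      rw [h1, h, Matrix.mul_sub, Matrix.sub_mul, Matrix.mul_smul, Matrix.smul_mul, Matrix.mul_smul,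
        Matrix.mul_one, Matrix.smul_mul, hU1]
    rw [hD, Matrix.diagonal_mul_diagonal] at hDD
    have h3 := congrFun (congrFun hDD i) i
    rw [Matrix.diagonal_apply_eq, Matrix.sub_apply, Matrix.smul_apply, Matrix.smul_apply,
      Matrix.diagonal_apply_eq, Matrix.one_apply_eq] at h3
    have h4 : l i * l i = (a + b) * l i - a * b := by
      have h5 : (((l i * l i : ℝ)) : ℂ) = (((a + b) * l i - a * b : ℝ) : ℂ) := by
        push_cast
        rw [h3]
        simp
      exact_mod_cast h5
    have h6 : (l i - a) * (l i - b) = 0 := by linarith [h4]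
    rcases mul_eq_zero.1 h6 with h7 | h7
    · left; linarith
    · right; linarith
  have hc : cfc f M = cfc (fun x => ((f a - f b) / (a - b)) * x +
      (f a - (f a - f b) / (a - b) * a)) M := by
    refine cfc_congr (fun x hx => ?_)
    rcases hspec x hx with rfl | rfl
    · ring
    · rcases eq_or_ne a x with rfl | hab
      · simp
      · have : a - x ≠ 0 := sub_ne_zero.2 hab
        field_simp
        ring
  rw [hc, cfc_add_const (R := ℝ) (f a - (f a - f b) / (a - b) * a)
    (fun x => ((f a - f b) / (a - b)) * x) M (cont_spec _ _) hM.isSelfAdjoint,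
    cfc_const_mul_id (R := ℝ) _ M hM.isSelfAdjoint]
  congr 1
  rw [Algebra.algebraMap_eq_smul_one]

/-- `a v vᵀ + b u uᵀ` with `v = (c, s)`, `u = (-s, c)` -/
noncomputable def rk (c s a b : ℝ) : Matrix (Fin 2) (Fin 2) ℂ :=
  R2 (a * c ^ 2 + b * s ^ 2) ((a - b) * c * s) (a * s ^ 2 + b * c ^ 2)

theorem R2_add (a b d a' b' d' : ℝ) : R2 a b d + R2 a' b' d' = R2 (a + a') (b + b') (d + d') := by
  ext i j
  fin_cases i <;> fin_cases j <;> simp [R2]

theorem R2_sub (a b d a' b' d' : ℝ) : R2 a b d - R2 a' b' d' = R2 (a - a') (b - b') (d - d') := by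
  ext i j
  fin_cases i <;> fin_cases j <;> simp [R2]

theorem R2_smul (c a b d : ℝ) : c • R2 a b d = R2 (c * a) (c * b) (c * d) := by
  ext i j
  fin_cases i <;> fin_cases j <;> simp [R2]

theorem R2_one : (1 : Matrix (Fin 2) (Fin 2) ℂ) = R2 1 0 1 := by
  ext i j
  fin_cases i <;> fin_cases j <;> simp [R2]

theorem cfc_rk (c s a b : ℝ) (hcs : c ^ 2 + s ^ 2 = 1) (f : ℝ → ℝ) :
    cfc f (rk c s a b) = rk c s (f a) (f b) := by
  have h : rk c s a b * rk c s a b = (a + b) • rk c s a b - (a * b) •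
      (1 : Matrix (Fin 2) (Fin 2) ℂ) := by
    rw [R2_one]
    unfold rk
    rw [R2_smul, R2_smul, R2_sub]
    ext i j
    fin_cases i <;> fin_cases j <;>
      simp only [R2, Matrix.mul_apply, Fin.sum_univ_two, Matrix.of_apply, Matrix.cons_val',
        Matrix.cons_val_zero, Matrix.cons_val_one, Matrix.cons_val_fin_one, Fin.mk_zero,
        Fin.mk_one, Fin.isValue] <;>
      norm_cast
    · linear_combination (a ^ 2 * c ^ 2 + b ^ 2 * s ^ 2 - a * b) * hcs
    · linear_combination (a - b) * (a + b) * c * s * hcs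
    · linear_combination (a - b) * (a + b) * c * s * hcs
    · linear_combination (a ^ 2 * s ^ 2 + b ^ 2 * c ^ 2 - a * b) * hcs
  rw [cfc_two_point (rk c s a b) (R2_herm _ _ _) a b h f]
  rw [R2_one]
  unfold rk
  rw [R2_smul, R2_smul, R2_add]
  have hs : s ^ 2 = 1 - c ^ 2 := by linarith
  rcases eq_or_ne a b with rfl | hab
  · simp only [sub_self, div_zero, zero_mul, zero_add, sub_zero, mul_one, mul_zero, add_zero]
    rw [hs]
    congr 1 <;> ring
  · have hne : a - b ≠ 0 := sub_ne_zero.2 hab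
    have hk : (f a - f b) / (a - b) * (a - b) = f a - f b := div_mul_cancel₀ _ hne
    generalize (f a - f b) / (a - b) = k at *
    rw [hs]
    have hfb : f b = f a - k * (a - b) := by linarith
    rw [hfb]
    congr 1 <;> ring

end Pool.Agent.N95.PM
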