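import Mathlib
import Pool.Agent.N95.PM.Neg

set_option autoImplicit false

open Matrix
open scoped ENNReal BigOperators ComplexOrder

namespace Pool.Agent.N95.PM

theorem norm_fin_two_le (q : ℝ≥0∞) (hq : 1 ≤ q) (f : Fin 2 → ℝ) :
    ‖(WithLp.toLp q f : PiLp q (fun _ : Fin 2 => ℝ))‖ ≤ |f 0| + |f 1| := by
  have : Fact (1 ≤ q) := ⟨hq⟩
  have e : (WithLp.toLp q f : PiLp q (fun _ : Fin 2 => ℝ)) =
      WithLp.toLp q (Pi.single 0 (f 0)) + WithLp.toLp q (Pi.single 1 (f 1)) := by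
    rw [← WithLp.toLp_add]
    congr 1
    funext i
    fin_cases i <;> simp
  rw [e]
  refine (norm_add_le _ _).trans ?_
  have h0 := PiLp.norm_single q (fun _ : Fin 2 => ℝ) 0 (f 0)
  have h1 := PiLp.norm_single q (fun _ : Fin 2 => ℝ) 1 (f 1)
  exact le_of_eq (congrArg₂ (· + ·) h0 h1)

theorem le_norm_apply {n : ℕ} (q : ℝ≥0∞) (hq : 1 ≤ q) (f : Fin n → ℝ) (i : Fin n) :
    |f i| ≤ ‖(WithLp.toLp q f : PiLp q (fun _ : Fin n => ℝ))‖ := by
  have : Fact (1 ≤ q) := ⟨hq⟩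
  exact PiLp.norm_apply_le (WithLp.toLp q f : PiLp q (fun _ : Fin n => ℝ)) i

theorem R2_trace (a b d : ℝ) :
    (R2_herm a b d).eigenvalues 0 + (R2_herm a b d).eigenvalues 1 = a + d := by
  have h := (R2_herm a b d).trace_eq_sum_eigenvalues
  rw [Fin.sum_univ_two] at h
  have h2 : (R2 a b d).trace = ((a + d : ℝ) : ℂ) := by
    simp [R2, Matrix.trace_fin_two]
  rw [h2] at h
  have h3 := congrArg Complex.re h
  simp at h3
  linarith

theorem R2_det (a b d : ℝ) :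
    (R2_herm a b d).eigenvalues 0 * (R2_herm a b d).eigenvalues 1 = a * d - b ^ 2 := by
  have h := (R2_herm a b d).det_eq_prod_eigenvalues
  rw [Fin.prod_univ_two] at h
  have h2 : (R2 a b d).det = ((a * d - b ^ 2 : ℝ) : ℂ) := by
    simp [R2, Matrix.det_fin_two]
    ring
  rw [h2] at h
  have h3 : ((a * d - b ^ 2 : ℝ) : ℂ) = (((R2_herm a b d).eigenvalues 0 *
      (R2_herm a b d).eigenvalues 1 : ℝ) : ℂ) := by
    rw [h]
    push_cast
    rfl
  exact_mod_cast h3.symm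

theorem schatten_R2_le (q : ℝ≥0∞) (hq : 1 ≤ q) (a b d K : ℝ) (hK : 0 ≤ K)
    (h1 : (a - d) ^ 2 + 4 * b ^ 2 ≤ K ^ 2) (h2 : (a + d) ^ 2 ≤ K ^ 2) :
    schatten q (R2 a b d) ≤ K := by
  rw [schatten_hermitian q hq _ (R2_herm a b d)]
  refine (norm_fin_two_le q hq _).trans ?_
  simp only [abs_abs]
  have ht := R2_trace a b d
  have hd := R2_det a b d
  generalize (R2_herm a b d).eigenvalues 0 = x at *
  generalize (R2_herm a b d).eigenvalues 1 = y at *
  apply abs_le_of_sq_le_sq' _ hK |>.2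
  have e : (|x| + |y|) ^ 2 = x ^ 2 + y ^ 2 + 2 * |x * y| := by
    rw [abs_mul, add_sq, sq_abs, sq_abs]
    ring
  rw [e]
  rcases le_total 0 (x * y) with h | h
  · rw [abs_of_nonneg h]
    have : (x + y) ^ 2 ≤ K ^ 2 := by rw [ht]; exact h2
    nlinarith
  · rw [abs_of_nonpos h]
    have h3 : (x + y) ^ 2 = (a + d) ^ 2 := by rw [ht]
    nlinarith

/-- rotation with columns `(c,s)` and `(-s,c)` -/
noncomputable def rotM (c s : ℝ) : Matrix (Fin 2) (Fin 2) ℂ := !![(c : ℂ), ((-s : ℝ) : ℂ); (s : ℂ), (c : ℂ)]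

theorem rotM_unitary (c s : ℝ) (hcs : c ^ 2 + s ^ 2 = 1) : (rotM c s)ᴴ * rotM c s = 1 := by
  have h : (c : ℂ) * c + (s : ℂ) * s = 1 := by
    have : ((c ^ 2 + s ^ 2 : ℝ) : ℂ) = ((1 : ℝ) : ℂ) := by rw [hcs]
    push_cast at this
    linear_combination this
  ext i j
  fin_cases i <;> fin_cases j <;>
    simp [rotM, Matrix.mul_apply, Fin.sum_univ_two, Matrix.conjTranspose_apply]
  · exact h
  · ring
  · ring
  · linear_combination h

theorem dg_rotM_zero (c s a b d : ℝ) :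
    dg (rotM c s) (R2 a b d) 0 = a * c ^ 2 + 2 * b * (c * s) + d * s ^ 2 := by
  simp [dg, rotM, R2, Matrix.mul_apply, Fin.sum_univ_two, Matrix.conjTranspose_apply]
  ring

theorem dg_rotM_one (c s a b d : ℝ) :
    dg (rotM c s) (R2 a b d) 1 = a * s ^ 2 - 2 * b * (c * s) + d * c ^ 2 := by
  simp [dg, rotM, R2, Matrix.mul_apply, Fin.sum_univ_two, Matrix.conjTranspose_apply]
  ring

/-- negative exponents -/
theorem neg_not_monotonic (p : ℝ) (hp : p < 0) (q : ℝ≥0∞) (hq : 1 ≤ q) :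
    ¬ PowerMeanMonotonic p q := by
  intro hmono
  have hp0 : p ≠ 0 := hp.ne
  set τ : ℝ := 49 / 2500 with hτ
  have hτ0 : 0 < τ := by norm_num [hτ]
  set C : ℝ := τ ^ (1 / p) with hC
  have hC0 : 0 < C := Real.rpow_pos_of_pos hτ0 _
  have hrneg : 1 / p ≤ 0 := (one_div_neg.2 hp).le
  set z : ℝ := 4 * C + 9 with hz
  have hz0 : 0 < z := by positivity
  set ε : ℝ := (4 : ℝ) ^ (1 / p) with hε
  have hε0 : 0 < ε := Real.rpow_pos_of_pos (by norm_num) _
  have hε1 : ε ≤ 1 := Real.rpow_le_one_of_one_le_of_nonpos (by norm_num) hrneg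
  have hεp : ε ^ p = 4 := by
    rw [hε, ← Real.rpow_mul (by norm_num), one_div_mul_cancel hp0, Real.rpow_one]
  have hcs : (7 / 25 : ℝ) ^ 2 + (24 / 25 : ℝ) ^ 2 = 1 := by norm_num
  set Y : Matrix (Fin 2) (Fin 2) ℂ := rk (7 / 25) (24 / 25) z ε with hY
  set X : Matrix (Fin 2) (Fin 2) ℂ := rk 1 0 1 z with hX
  have hXpd : X.PosDef := by
    rw [hX]
    unfold rk
    exact R2_pd _ _ _ (by norm_num) (by nlinarith)
  have hYpd : Y.PosDef := by
    rw [hY]
    unfold rk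
    apply R2_pd
    · positivity
    · have := mul_pos hz0 hε0
      nlinarith
  have hXp : mpow X p = rk 1 0 1 (z ^ p) := by
    unfold mpow
    rw [hX, cfc_rk 1 0 1 z (by norm_num), Real.one_rpow]
  have hYp : mpow Y p = rk (7 / 25) (24 / 25) (z ^ p) 4 := by
    unfold mpow
    rw [hY, cfc_rk _ _ _ _ hcs, hεp]
  have hx0 : 0 < z ^ p := Real.rpow_pos_of_pos hz0 _
  have hx1 : z ^ p ≤ 1 := Real.rpow_le_one_of_one_le_of_nonpos (by rw [hz]; linarith) hp.le
  -- the mixture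
  have hT : (1 / 2 : ℝ) • mpow X p + (1 - 1 / 2 : ℝ) • mpow Y p =
      R2 (1 / 2 * (1 + z ^ p * (49 / 625) + 4 * (576 / 625)))
        (1 / 2 * ((z ^ p - 4) * (168 / 625)))
        (1 / 2 * (z ^ p + z ^ p * (576 / 625) + 4 * (49 / 625))) := by
    rw [hXp, hYp]
    unfold rk
    rw [R2_smul, R2_smul, R2_add]
    congr 1 <;> ring
  set μ := powerMean p (1 / 2) X Y with hμ
  have hμT : μ = mpow (R2 (1 / 2 * (1 + z ^ p * (49 / 625) + 4 * (576 / 625)))
        (1 / 2 * ((z ^ p - 4) * (168 / 625)))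
        (1 / 2 * (z ^ p + z ^ p * (576 / 625) + 4 * (49 / 625)))) (1 / p) := by
    rw [hμ]
    unfold powerMean
    rw [hT]
  have hμH : μ.IsHermitian := by
    rw [hμT]; exact mpow_isHermitian _ _
  have hV := rotM_unitary (7 / 25) (24 / 25) hcs
  have hdμ : dg (rotM (7 / 25) (24 / 25)) μ 0 ≤ C := by
    rw [hμT]
    generalize z ^ p = x at *
    set T := R2 (1 / 2 * (1 + x * (49 / 625) + 4 * (576 / 625)))
        (1 / 2 * ((x - 4) * (168 / 625)))
        (1 / 2 * (x + x * (576 / 625) + 4 * (49 / 625))) with hTd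
    have hTH : T.IsHermitian := R2_herm _ _ _
    have hge : ∀ i, τ ≤ hTH.eigenvalues i := by
      intro i
      apply eig_ge
      rw [hTd, R2_one, R2_smul, R2_sub]
      apply R2_psd
      · rw [hτ]; nlinarith
      · rw [hτ]; nlinarith
      · rw [hτ]; nlinarith
    obtain ⟨P, hP0, hP1, _, _, hPf⟩ := dg_cfc T hTH _ hV
    unfold mpow
    rw [hPf]
    calc ∑ j, hTH.eigenvalues j ^ (1 / p) * P 0 j ≤ ∑ j, C * P 0 j := by
          refine Finset.sum_le_sum (fun j _ => mul_le_mul_of_nonneg_right ?_ (hP0 0 j))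
          exact Real.rpow_le_rpow_of_nonpos hτ0 (hge j) hrneg
      _ = C := by rw [← Finset.mul_sum, hP1, mul_one]
  have hdY : dg (rotM (7 / 25) (24 / 25)) Y 0 = z := by
    rw [hY]
    unfold rk
    rw [dg_rotM_zero]
    ring
  have hlow : z - C ≤ schatten q (μ - Y) := by
    refine le_trans ?_ (pinch q hq (μ - Y) (hμH.sub hYpd.1) _ hV)
    refine le_trans ?_ (le_norm_apply q hq _ 0)
    rw [dg_sub, Pi.sub_apply, hdY]
    refine le_trans ?_ (neg_le_abs _)
    linarith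
  have hup : schatten q (X - Y) < z - C := by
    have hb : schatten q (X - Y) ≤ 3 / 4 * z - 1 := by
      rw [hX, hY]
      unfold rk
      rw [R2_sub]
      apply schatten_R2_le q hq
      · rw [hz]; nlinarith
      · nlinarith
      · nlinarith
    refine lt_of_le_of_lt hb ?_
    rw [hz]; linarith
  have h := hmono 2 X Y hXpd hYpd (show (1 / 2 : ℝ) ∈ Set.Icc (0 : ℝ) 1 by
    constructor <;> norm_num) (show (1 : ℝ) ∈ Set.Icc (0 : ℝ) 1 by constructor <;> norm_num)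
    (by norm_num)
  simp only at h
  rw [powerMean_one p hp0 X Y hXpd] at h
  linarith

end Pool.Agent.N95.PM
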