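import Mathlib

set_option autoImplicit false

namespace Pool.Agent.N95.PM

theorem abs_rpow_sub_one_le (x r : ℝ) (hx : 0 < x) (hr0 : 0 ≤ r) (hr1 : r ≤ 1) :
    |x ^ r - 1| ≤ |x - 1| := by
  rcases le_total x 1 with h | h
  · have h1 : x ≤ x ^ r := by
      have := Real.rpow_le_rpow_of_exponent_ge hx h hr1
      simpa using this
    have h2 : x ^ r ≤ 1 := Real.rpow_le_one hx.le h hr0
    rw [abs_of_nonpos (by linarith), abs_of_nonpos (by linarith)]
    linarith
  · have h1 : x ^ r ≤ x := by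
      have := Real.rpow_le_rpow_of_exponent_le h hr1
      simpa using this
    have h2 : 1 ≤ x ^ r := Real.one_le_rpow h hr0
    rw [abs_of_nonneg (by linarith), abs_of_nonneg (by linarith)]
    linarith

/-- ordered scalar core -/
theorem scalar_core_aux (r m C S P l0 l1 K1 b e κ : ℝ) (hr0 : 0 < r) (hr1 : r < 1)
    (hm : 0 ≤ m) (hCS : C + S = 1) (hC0 : 0 ≤ C) (hS0 : 0 ≤ S) (hκ : κ = S - m * C)
    (hP0 : 0 ≤ P) (hP1 : P ≤ 1) (hl : 0 < l1) (he0 : 0 < e) (hK1 : 0 < K1) (hb : 0 < b)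
    (h11 : |l0 * P + l1 * (1 - P) - C| ≤ K1 * e)
    (h22 : |l0 * (1 - P) + l1 * P - S| ≤ K1 * e)
    (hlK : l1 ≤ K1 * e) (hlb : b * e ≤ l1)
    (hs1 : 8 * K1 * e ≤ 1) (hs2 : 20 * (1 + m) * K1 * e ≤ κ)
    (hs3 : e * (13 * (1 + m) * K1 + κ) < κ / 2 * (b * e) ^ r) :
    0 < (l0 ^ r * P + l1 ^ r * (1 - P) - (C + e * S)) -
      m * (l0 ^ r * (1 - P) + l1 ^ r * P - (S + e * C)) := by
  have hκ0 : 0 < κ := by
    have : 0 < 20 * (1 + m) * K1 * e := by positivity
    linarith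
  have hKe : 0 < K1 * e := by positivity
  rw [abs_le] at h11 h22
  have hl0a : |l0 - 1| ≤ 3 * (K1 * e) := by
    rw [abs_le]
    constructor <;> nlinarith
  have hl0' := abs_le.1 hl0a
  have hl0pos : 0 < l0 := by nlinarith
  have hgap : 1 / 2 ≤ l0 - l1 := by nlinarith
  have hPC : |P - C| ≤ 10 * (K1 * e) := by
    have e1 : (P - C) * (l0 - l1) = (l0 * P + l1 * (1 - P) - C) - C * (l0 - 1) - l1 * (1 - C) := by
      ring
    have e2 : |(P - C) * (l0 - l1)| ≤ 5 * (K1 * e) := by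
      rw [e1, abs_le]
      have hC1 : C ≤ 1 := by linarith
      have t1 : |C * (l0 - 1)| ≤ 3 * (K1 * e) := by
        rw [abs_mul, abs_of_nonneg hC0]
        calc C * |l0 - 1| ≤ 1 * |l0 - 1| := mul_le_mul_of_nonneg_right hC1 (abs_nonneg _)
          _ ≤ 3 * (K1 * e) := by rw [one_mul]; exact hl0a
      have t1' := abs_le.1 t1
      have t2 : 0 ≤ l1 * (1 - C) := mul_nonneg hl.le (by linarith)
      have t3 : l1 * (1 - C) ≤ K1 * e := by
        calc l1 * (1 - C) ≤ l1 * 1 := mul_le_mul_of_nonneg_left (by linarith) hl.le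
          _ ≤ K1 * e := by rw [mul_one]; exact hlK
      constructor <;> linarith [h11.1, h11.2, t1'.1, t1'.2]
    rw [abs_mul, abs_of_pos (show (0 : ℝ) < l0 - l1 by linarith)] at e2
    have : |P - C| * (1 / 2) ≤ |P - C| * (l0 - l1) :=
      mul_le_mul_of_nonneg_left hgap (abs_nonneg _)
    linarith
  have hPC' := abs_le.1 hPC
  have hS1 : |l0 ^ r - 1| ≤ 3 * (K1 * e) :=
    (abs_rpow_sub_one_le l0 r hl0pos hr0.le hr1.le).trans hl0a
  have hlr : (b * e) ^ r ≤ l1 ^ r := Real.rpow_le_rpow (by positivity) hlb hr0.le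
  have hlr0 : 0 ≤ (b * e) ^ r := Real.rpow_nonneg (by positivity) _
  have hid : (l0 ^ r * P + l1 ^ r * (1 - P) - (C + e * S)) -
      m * (l0 ^ r * (1 - P) + l1 ^ r * P - (S + e * C)) =
      (l0 ^ r - 1) * ((1 + m) * P - m) + (1 + m) * (P - C) + l1 ^ r * ((1 - P) - m * P) - e * κ := by
    rw [hκ]
    have : S = 1 - C := by linarith
    rw [this]
    ring
  rw [hid]
  have b1 : -(3 * (1 + m) * (K1 * e)) ≤ (l0 ^ r - 1) * ((1 + m) * P - m) := by
    have h1 : |(l0 ^ r - 1) * ((1 + m) * P - m)| ≤ 3 * (K1 * e) * (1 + m) := by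
      rw [abs_mul]
      refine mul_le_mul hS1 ?_ (abs_nonneg _) (by positivity)
      have hmP : m * P ≤ m * 1 := mul_le_mul_of_nonneg_left hP1 hm
      have hmP0 : 0 ≤ m * P := mul_nonneg hm hP0
      rw [abs_le]
      constructor <;> linarith
    have := neg_le_of_abs_le h1
    linarith
  have b2 : -(10 * (1 + m) * (K1 * e)) ≤ (1 + m) * (P - C) := by
    have h1 : 0 ≤ (1 + m) * ((P - C) + 10 * (K1 * e)) :=
      mul_nonneg (by linarith) (by linarith [hPC'.1])
    linarith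
  have b3 : κ / 2 ≤ (1 - P) - m * P := by
    have : (1 - P) - m * P = κ + (1 + m) * (C - P) := by
      rw [hκ]
      have : S = 1 - C := by linarith
      rw [this]; ring
    rw [this]
    have h1 : 0 ≤ (1 + m) * ((C - P) + 10 * (K1 * e)) :=
      mul_nonneg (by linarith) (by linarith [hPC'.2])
    have h2 : (1 + m) * (10 * (K1 * e)) ≤ κ / 2 := by linarith
    linarith
  have b4 : κ / 2 * (b * e) ^ r ≤ l1 ^ r * ((1 - P) - m * P) := by
    calc κ / 2 * (b * e) ^ r ≤ ((1 - P) - m * P) * (b * e) ^ r :=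
          mul_le_mul_of_nonneg_right b3 hlr0
      _ ≤ ((1 - P) - m * P) * l1 ^ r := mul_le_mul_of_nonneg_left hlr (by linarith)
      _ = _ := by ring
  have b5 : e * (13 * (1 + m) * K1 + κ) = 13 * (1 + m) * (K1 * e) + e * κ := by ring
  linarith

theorem exists_small (r κ b K1 m : ℝ) (hr1 : r < 1) (hκ : 0 < κ) (hb : 0 < b) (hK1 : 0 < K1)
    (hm : 0 ≤ m) : ∃ e : ℝ, 0 < e ∧ e < 1 ∧ 8 * K1 * e ≤ 1 ∧ 20 * (1 + m) * K1 * e ≤ κ ∧
      e * (13 * (1 + m) * K1 + κ) < κ / 2 * (b * e) ^ r := by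
  set K2 := 13 * (1 + m) * K1 + κ with hK2
  have hK20 : 0 < K2 := by positivity
  set x := κ * b ^ r / (4 * K2) with hx
  have hbr : 0 < b ^ r := Real.rpow_pos_of_pos hb _
  have hx0 : 0 < x := by positivity
  set e := min (min (1 / 2) (1 / (8 * K1))) (min (κ / (20 * (1 + m) * K1)) (x ^ (1 / (1 - r))))
    with he
  have hxr : 0 < x ^ (1 / (1 - r)) := Real.rpow_pos_of_pos hx0 _
  have he0 : 0 < e := by
    rw [he]
    refine lt_min (lt_min (by norm_num) (by positivity)) (lt_min (by positivity) hxr)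
  refine ⟨e, he0, ?_, ?_, ?_, ?_⟩
  · have : e ≤ 1 / 2 := (min_le_left _ _).trans (min_le_left _ _)
    linarith
  · have : e ≤ 1 / (8 * K1) := (min_le_left _ _).trans (min_le_right _ _)
    rw [le_div_iff₀ (by positivity)] at this
    linarith
  · have : e ≤ κ / (20 * (1 + m) * K1) := (min_le_right _ _).trans (min_le_left _ _)
    rw [le_div_iff₀ (by positivity)] at this
    linarith
  · have h1 : e ≤ x ^ (1 / (1 - r)) := (min_le_right _ _).trans (min_le_right _ _)
    have h1r : 0 < 1 - r := by linarith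
    have h2 : e ^ (1 - r) ≤ x := by
      have := Real.rpow_le_rpow he0.le h1 h1r.le
      rwa [← Real.rpow_mul hx0.le, one_div_mul_cancel h1r.ne', Real.rpow_one] at this
    have h3 : e = e ^ r * e ^ (1 - r) := by
      rw [← Real.rpow_add he0]
      simp
    have her : 0 < e ^ r := Real.rpow_pos_of_pos he0 _
    rw [Real.mul_rpow hb.le he0.le]
    calc e * K2 = (e ^ r * e ^ (1 - r)) * K2 := by rw [← h3]
      _ ≤ e ^ r * x * K2 := by gcongr
      _ = e ^ r * (κ * b ^ r / 4) := by rw [hx]; field_simp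
      _ < κ / 2 * (b ^ r * e ^ r) := by
          have : 0 < κ * b ^ r * e ^ r := by positivity
          nlinarith

end Pool.Agent.N95.PM
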