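import Mathlib
import Pool.Agent.N95.PM.NegThm
import Pool.Agent.N95.PM.Scalar

set_option autoImplicit false

open Matrix
open scoped ENNReal BigOperators ComplexOrder

namespace Pool.Agent.N95.PM

theorem dg_id_zero (a b d : ℝ) : dg 1 (R2 a b d) 0 = a := by
  simp [dg, R2]

theorem dg_id_one (a b d : ℝ) : dg 1 (R2 a b d) 1 = d := by
  simp [dg, R2]

theorem one_unitary : (1 : Matrix (Fin 2) (Fin 2) ℂ)ᴴ * 1 = 1 := by simp

theorem pos_core (p : ℝ) (hp : 1 < p) (r0 m : ℝ) (hr0 : 0 < r0) (hm : 0 ≤ m) (hmr : m < r0) :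
    ∃ (w t : ℝ) (X Y : Matrix (Fin 2) (Fin 2) ℂ), 0 < w ∧ 0 < t ∧ t < 1 ∧ X.PosDef ∧ Y.PosDef ∧
      X - Y = R2 w 0 (-(w * r0)) ∧
      0 < dg 1 (powerMean p t X Y - X) 0 - m * dg 1 (powerMean p t X Y - X) 1 := by
  have hp0 : 0 < p := by linarith
  set ρ := (m + r0) / 2 with hρ
  have hρ0 : 0 < ρ := by positivity
  set c := Real.sqrt (1 / (1 + ρ)) with hc
  set s := Real.sqrt (ρ / (1 + ρ)) with hs
  have hc2 : c ^ 2 = 1 / (1 + ρ) := Real.sq_sqrt (by positivity)
  have hs2 : s ^ 2 = ρ / (1 + ρ) := Real.sq_sqrt (by positivity)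
  have hcs : c ^ 2 + s ^ 2 = 1 := by rw [hc2, hs2]; field_simp
  have hc20 : 0 < c ^ 2 := by rw [hc2]; positivity
  have hs20 : 0 < s ^ 2 := by rw [hs2]; positivity
  have hsc : s ^ 2 = ρ * c ^ 2 := by rw [hc2, hs2]; field_simp
  set κ := s ^ 2 - m * c ^ 2 with hκ
  have hκ0 : 0 < κ := by
    have : κ = (ρ - m) * c ^ 2 := by rw [hκ, hsc]; ring
    rw [this]
    have : 0 < ρ - m := by rw [hρ]; linarith
    positivity
  set g := r0 * c ^ 2 - s ^ 2 with hg
  have hg0 : 0 < g := by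
    have : g = (r0 - ρ) * c ^ 2 := by rw [hg, hsc]; ring
    rw [this]
    have : 0 < r0 - ρ := by rw [hρ]; linarith
    positivity
  set w := g / (2 * r0) with hw
  have hw0 : 0 < w := by positivity
  have hwr : w * r0 = g / 2 := by rw [hw]; field_simp
  have hwc : w ≤ c ^ 2 / 2 := by
    rw [hw, div_le_div_iff₀ (by positivity) (by norm_num)]
    nlinarith
  -- base matrix Y0
  set a0 := c ^ 2 - w with ha0
  set d0 := s ^ 2 + w * r0 with hd0
  have ha0p : 0 < a0 := by rw [ha0]; linarith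
  have hd0p : 0 < d0 := by positivity
  set Δ := a0 * d0 - (c * s) ^ 2 with hΔ
  have hΔ0 : 0 < Δ := by
    have : Δ = w * (g - w * r0) := by
      rw [hΔ, ha0, hd0, hg]; ring
    rw [this, hwr]
    have : 0 < g - g / 2 := by linarith
    positivity
  set y0 := Δ / (a0 + d0) with hy0
  have hy00 : 0 < y0 := by positivity
  have hy0m : y0 * (a0 + d0) = Δ := by rw [hy0]; field_simp
  set K0 := 2 + w * r0 with hK0
  have hK00 : 0 < K0 := by positivity
  set K := K0 ^ p with hK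
  have hKp : 0 < K := Real.rpow_pos_of_pos hK00 _
  set b0 := y0 ^ p with hb0
  have hb00 : 0 < b0 := Real.rpow_pos_of_pos hy00 _
  set r := 1 / p with hr
  have hr0' : 0 < r := by positivity
  have hr1' : r < 1 := by rw [hr, div_lt_one hp0]; exact hp
  obtain ⟨e, he0, he1, hs1, hs2', hs3⟩ := exists_small r κ b0 (1 + 2 * K) m hr1' hκ0 hb00
    (by positivity) hm
  set X : Matrix (Fin 2) (Fin 2) ℂ := rk c s 1 e with hX
  have hXe : X = R2 (c ^ 2 + e * s ^ 2) ((1 - e) * c * s) (s ^ 2 + e * c ^ 2) := by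
    rw [hX]; unfold rk; congr 1 <;> ring
  set Y : Matrix (Fin 2) (Fin 2) ℂ :=
    R2 (c ^ 2 + e * s ^ 2 - w) ((1 - e) * c * s) (s ^ 2 + e * c ^ 2 + w * r0) with hY
  have hXH : X.IsHermitian := by rw [hXe]; exact R2_herm _ _ _
  have hYH : Y.IsHermitian := by rw [hY]; exact R2_herm _ _ _
  have hXpd : X.PosDef := by
    rw [hXe]
    apply R2_pd
    · positivity
    · have h1 : (c ^ 2 + e * s ^ 2) * (s ^ 2 + e * c ^ 2) - ((1 - e) * c * s) ^ 2 =
          e * (c ^ 2 + s ^ 2) ^ 2 := by ring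
      rw [hcs] at h1
      linarith
  have hYpsd : (Y - y0 • (1 : Matrix (Fin 2) (Fin 2) ℂ)).PosSemidef := by
    have h1 : (R2 (a0 - y0) (c * s) (d0 - y0)).PosSemidef := by
      have hA : (a0 - y0) * (a0 + d0) = a0 ^ 2 + (c * s) ^ 2 := by
        have : (a0 - y0) * (a0 + d0) = a0 ^ 2 + a0 * d0 - y0 * (a0 + d0) := by ring
        rw [this, hy0m, hΔ]; ring
      have hD : (d0 - y0) * (a0 + d0) = d0 ^ 2 + (c * s) ^ 2 := by
        have : (d0 - y0) * (a0 + d0) = d0 ^ 2 + a0 * d0 - y0 * (a0 + d0) := by ring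
        rw [this, hy0m, hΔ]; ring
      apply R2_psd
      · have : 0 ≤ (a0 - y0) * (a0 + d0) := by rw [hA]; positivity
        exact nonneg_of_mul_nonneg_left this (by positivity)
      · have : 0 ≤ (d0 - y0) * (a0 + d0) := by rw [hD]; positivity
        exact nonneg_of_mul_nonneg_left this (by positivity)
      · have : (a0 - y0) * (d0 - y0) = Δ + (c * s) ^ 2 - y0 * (a0 + d0) + y0 ^ 2 := by
          rw [hΔ]; ring
        rw [this, hy0m]
        nlinarith [sq_nonneg y0]
    have h2 : (R2 (s ^ 2) (-(c * s)) (c ^ 2)).PosSemidef := by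
      apply R2_psd _ _ _ (by positivity) (by positivity)
      apply le_of_eq; ring
    have h3 := h1.add (h2.smul he0.le)
    have h4 : Y - y0 • (1 : Matrix (Fin 2) (Fin 2) ℂ) =
        R2 (a0 - y0) (c * s) (d0 - y0) + e • R2 (s ^ 2) (-(c * s)) (c ^ 2) := by
      rw [hY, R2_one, R2_smul, R2_smul, R2_sub, R2_add, ha0, hd0]
      congr 1 <;> ring
    rw [h4]
    exact h3
  have heigY : ∀ i, y0 ≤ hYH.eigenvalues i := fun i => eig_ge Y hYH y0 hYpsd i
  have hYpd : Y.PosDef := by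
    rw [hYH.posDef_iff_eigenvalues_pos]
    intro i
    exact lt_of_lt_of_le hy00 (heigY i)
  have hsum : hYH.eigenvalues 0 + hYH.eigenvalues 1 ≤ K0 := by
    have h1 := R2_trace (c ^ 2 + e * s ^ 2 - w) ((1 - e) * c * s) (s ^ 2 + e * c ^ 2 + w * r0)
    have h2 : hYH.eigenvalues 0 + hYH.eigenvalues 1 =
        c ^ 2 + e * s ^ 2 - w + (s ^ 2 + e * c ^ 2 + w * r0) := h1
    rw [h2, hK0]
    have : e * s ^ 2 + e * c ^ 2 = e := by
      have : e * s ^ 2 + e * c ^ 2 = e * (c ^ 2 + s ^ 2) := by ring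
      rw [this, hcs, mul_one]
    linarith
  have heigY2 : ∀ i, hYH.eigenvalues i ≤ K0 := by
    intro i
    have h0 := heigY 0
    have h1 := heigY 1
    fin_cases i
    · change hYH.eigenvalues 0 ≤ K0
      linarith
    · change hYH.eigenvalues 1 ≤ K0
      linarith
  -- bounds for B = Y ^ p
  set B := mpow Y p with hB
  have hBH : B.IsHermitian := mpow_isHermitian _ _
  have hBb : ∀ V : Matrix (Fin 2) (Fin 2) ℂ, Vᴴ * V = 1 → ∀ i, b0 ≤ dg V B i ∧ dg V B i ≤ K := by
    intro V hV i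
    obtain ⟨P, hP0, hP1, _, _, hPf⟩ := dg_cfc Y hYH V hV
    have hval : dg V B i = ∑ j, (hYH.eigenvalues j) ^ p * P i j := by
      rw [hB]; unfold mpow; rw [hPf]
    rw [hval]
    constructor
    · calc b0 = ∑ j, b0 * P i j := by rw [← Finset.mul_sum, hP1, mul_one]
        _ ≤ _ := by
          refine Finset.sum_le_sum (fun j _ => mul_le_mul_of_nonneg_right ?_ (hP0 i j))
          exact Real.rpow_le_rpow hy00.le (heigY j) hp0.le
    · calc _ ≤ ∑ j, K * P i j := by
            refine Finset.sum_le_sum (fun j _ => mul_le_mul_of_nonneg_right ?_ (hP0 i j))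
            exact Real.rpow_le_rpow (hy00.le.trans (heigY j)) (heigY2 j) hp0.le
        _ = K := by rw [← Finset.mul_sum, hP1, mul_one]
  -- A = X ^ p
  set ep := e ^ p with hep
  have hep0 : 0 < ep := Real.rpow_pos_of_pos he0 _
  have hepe : ep ≤ e := by
    have := Real.rpow_le_rpow_of_exponent_ge he0 he1.le hp.le
    simpa using this
  have hA : mpow X p = rk c s 1 ep := by
    unfold mpow
    rw [hX, cfc_rk c s 1 e hcs, Real.one_rpow]
  have hApsd : (rk c s 1 ep).PosSemidef := by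
    rw [← hA]; exact mpow_posSemidef X hXpd p
  set T := (1 - e) • rk c s 1 ep + e • B with hT
  have hTH : T.IsHermitian := by
    have hsm : ∀ (c : ℝ) (M : Matrix (Fin 2) (Fin 2) ℂ), M.IsHermitian → (c • M).IsHermitian := by
      intro c M hM
      rw [Matrix.IsHermitian, Matrix.conjTranspose_smul, hM.eq]
      simp
    exact (hsm _ _ hApsd.1).add (hsm _ _ hBH)
  have hpm : powerMean p (1 - e) X Y = mpow T r := by
    unfold powerMean
    rw [hA, hT, hB]
    congr 3
    ring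
  have hTdg : ∀ V i, dg V T i = (1 - e) * dg V (rk c s 1 ep) i + e * dg V B i := by
    intro V i
    rw [hT, dg_add, dg_smul, dg_smul]
    rfl
  have hlb : ∀ i, b0 * e ≤ hTH.eigenvalues i := by
    intro i
    rw [← eig_eq_dg T hTH i, hTdg]
    have h1 := dg_nonneg (hTH.eigenvectorUnitary : Matrix (Fin 2) (Fin 2) ℂ) _ hApsd i
    have h2 := (hBb _ (eigU_left T hTH) i).1
    have h3 : 0 ≤ (1 - e) * dg (hTH.eigenvectorUnitary : Matrix (Fin 2) (Fin 2) ℂ)
        (rk c s 1 ep) i := mul_nonneg (by linarith) h1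
    nlinarith
  have hmin : min (hTH.eigenvalues 0) (hTH.eigenvalues 1) ≤ (1 + 2 * K) * e := by
    have hV := rotM_unitary c s hcs
    obtain ⟨P, hP0, hP1, _, hPi, _⟩ := dg_cfc T hTH _ hV
    have h1 := hPi 1
    rw [hTdg] at h1
    have h2 : dg (rotM c s) (rk c s 1 ep) 1 = ep := by
      unfold rk
      rw [dg_rotM_one]
      have : (1 * c ^ 2 + ep * s ^ 2) * s ^ 2 - 2 * ((1 - ep) * c * s) * (c * s) +
          (1 * s ^ 2 + ep * c ^ 2) * c ^ 2 = ep * (c ^ 2 + s ^ 2) ^ 2 := by ring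
      rw [this, hcs]; ring
    have h3 := (hBb _ hV 1).2
    rw [h2] at h1
    have h4 : min (hTH.eigenvalues 0) (hTH.eigenvalues 1) ≤
        ∑ j, hTH.eigenvalues j * P 1 j := by
      calc min (hTH.eigenvalues 0) (hTH.eigenvalues 1) =
          ∑ j, min (hTH.eigenvalues 0) (hTH.eigenvalues 1) * P 1 j := by
            rw [← Finset.mul_sum, hP1, mul_one]
        _ ≤ _ := by
          refine Finset.sum_le_sum (fun j _ => mul_le_mul_of_nonneg_right ?_ (hP0 1 j))
          fin_cases j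
          · exact min_le_left _ _
          · exact min_le_right _ _
    rw [← h1] at h4
    refine h4.trans ?_
    have h5 : (1 - e) * ep ≤ 1 * e := mul_le_mul (by linarith) hepe hep0.le (by norm_num)
    have h6 : e * dg (rotM c s) B 1 ≤ e * K := mul_le_mul_of_nonneg_left h3 he0.le
    have h7 : 0 ≤ K * e := by positivity
    linarith
  -- diagonal entries in the standard basis
  obtain ⟨P, hP0, hP1, hP2, hPi, hPf⟩ := dg_cfc T hTH 1 one_unitary
  have hT0 : dg 1 T 0 = (1 - e) * (c ^ 2 + ep * s ^ 2) + e * dg 1 B 0 := by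
    rw [hTdg]
    unfold rk
    rw [dg_id_zero, one_mul]
  have hT1 : dg 1 T 1 = (1 - e) * (s ^ 2 + ep * c ^ 2) + e * dg 1 B 1 := by
    rw [hTdg]
    unfold rk
    rw [dg_id_one, one_mul]
  have hB0 := hBb 1 one_unitary 0
  have hB1 := hBb 1 one_unitary 1
  have hc1 : c ^ 2 ≤ 1 := by linarith
  have hs1' : s ^ 2 ≤ 1 := by linarith
  have h11 : |dg 1 T 0 - c ^ 2| ≤ (1 + 2 * K) * e := by
    rw [hT0, abs_le]
    have h1 : 0 ≤ (1 - e) * (ep * s ^ 2) := mul_nonneg (by linarith) (by positivity)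
    have h2 : (1 - e) * (ep * s ^ 2) ≤ 1 * (e * 1) :=
      mul_le_mul (by linarith) (mul_le_mul hepe hs1' (by positivity) he0.le) (by positivity)
        (by norm_num)
    have h3 : 0 ≤ e * dg 1 B 0 := mul_nonneg he0.le (hb00.le.trans hB0.1)
    have h4 : e * dg 1 B 0 ≤ e * K := mul_le_mul_of_nonneg_left hB0.2 he0.le
    have h5 : e * c ^ 2 ≤ e * 1 := mul_le_mul_of_nonneg_left hc1 he0.le
    have h6 : 0 ≤ e * c ^ 2 := by positivity
    have h7 : 0 ≤ e * K := by positivity
    constructor <;> nlinarith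
  have h22 : |dg 1 T 1 - s ^ 2| ≤ (1 + 2 * K) * e := by
    rw [hT1, abs_le]
    have h1 : 0 ≤ (1 - e) * (ep * c ^ 2) := mul_nonneg (by linarith) (by positivity)
    have h2 : (1 - e) * (ep * c ^ 2) ≤ 1 * (e * 1) :=
      mul_le_mul (by linarith) (mul_le_mul hepe hc1 (by positivity) he0.le) (by positivity)
        (by norm_num)
    have h3 : 0 ≤ e * dg 1 B 1 := mul_nonneg he0.le (hb00.le.trans hB1.1)
    have h4 : e * dg 1 B 1 ≤ e * K := mul_le_mul_of_nonneg_left hB1.2 he0.le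
    have h5 : e * s ^ 2 ≤ e * 1 := mul_le_mul_of_nonneg_left hs1' he0.le
    have h6 : 0 ≤ e * s ^ 2 := by positivity
    have h7 : 0 ≤ e * K := by positivity
    constructor <;> nlinarith
  have hX0 : dg 1 X 0 = c ^ 2 + e * s ^ 2 := by rw [hXe, dg_id_zero]
  have hX1 : dg 1 X 1 = s ^ 2 + e * c ^ 2 := by rw [hXe, dg_id_one]
  have hM0 : dg 1 (powerMean p (1 - e) X Y) 0 =
      hTH.eigenvalues 0 ^ r * P 0 0 + hTH.eigenvalues 1 ^ r * P 0 1 := by
    rw [hpm]; unfold mpow; rw [hPf, Fin.sum_univ_two]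
  have hM1 : dg 1 (powerMean p (1 - e) X Y) 1 =
      hTH.eigenvalues 0 ^ r * P 1 0 + hTH.eigenvalues 1 ^ r * P 1 1 := by
    rw [hpm]; unfold mpow; rw [hPf, Fin.sum_univ_two]
  have hPi0 := hPi 0
  have hPi1 := hPi 1
  rw [Fin.sum_univ_two] at hPi0 hPi1
  have q1 : P 0 1 = 1 - P 0 0 := by
    have := hP1 0; rw [Fin.sum_univ_two] at this; linarith
  have q2 : P 1 0 = 1 - P 0 0 := by
    have := hP2 0; rw [Fin.sum_univ_two] at this; linarith
  have q3 : P 1 1 = P 0 0 := by
    have := hP1 1; rw [Fin.sum_univ_two] at this; linarith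
  have hP00 := hP0 0 0
  have hP01 := hP0 0 1
  rw [q1] at hP01
  rw [q1] at hPi0 hM0
  rw [q2, q3] at hPi1 hM1
  rw [hPi0] at h11
  rw [hPi1] at h22
  have hl0 := hlb 0
  have hl1 := hlb 1
  refine ⟨w, 1 - e, X, Y, hw0, by linarith, by linarith, hXpd, hYpd, ?_, ?_⟩
  · rw [hXe, hY, R2_sub]
    congr 1 <;> ring
  · rw [dg_sub, Pi.sub_apply, Pi.sub_apply, hM0, hM1, hX0, hX1]
    have hbe : 0 < b0 * e := by positivity
    rcases le_total (hTH.eigenvalues 1) (hTH.eigenvalues 0) with h | h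
    · rw [min_eq_right h] at hmin
      exact scalar_core_aux r m (c ^ 2) (s ^ 2) (P 0 0) _ _ (1 + 2 * K) b0 e κ hr0' hr1' hm hcs
        hc20.le hs20.le hκ hP00 (by linarith) (lt_of_lt_of_le hbe hl1) he0 (by positivity) hb00
        h11 h22 hmin hl1 hs1 hs2' hs3
    · rw [min_eq_left h] at hmin
      have h11' : |hTH.eigenvalues 1 * (1 - P 0 0) + hTH.eigenvalues 0 * (1 - (1 - P 0 0)) -
          c ^ 2| ≤ (1 + 2 * K) * e := by
        rw [show hTH.eigenvalues 1 * (1 - P 0 0) + hTH.eigenvalues 0 * (1 - (1 - P 0 0)) =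
          hTH.eigenvalues 0 * P 0 0 + hTH.eigenvalues 1 * (1 - P 0 0) by ring]
        exact h11
      have h22' : |hTH.eigenvalues 1 * (1 - (1 - P 0 0)) + hTH.eigenvalues 0 * (1 - P 0 0) -
          s ^ 2| ≤ (1 + 2 * K) * e := by
        rw [show hTH.eigenvalues 1 * (1 - (1 - P 0 0)) + hTH.eigenvalues 0 * (1 - P 0 0) =
          hTH.eigenvalues 0 * (1 - P 0 0) + hTH.eigenvalues 1 * P 0 0 by ring]
        exact h22
      have := scalar_core_aux r m (c ^ 2) (s ^ 2) (1 - P 0 0) _ _ (1 + 2 * K) b0 e κ hr0' hr1' hm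
        hcs hc20.le hs20.le hκ (by linarith) (by linarith) (lt_of_lt_of_le hbe hl0) he0
        (by positivity) hb00 h11' h22' hmin hl0 hs1 hs2' hs3
      calc (0 : ℝ) < _ := this
        _ = _ := by ring

/-- exponents `> 1` -/
theorem pos_not_monotonic (p : ℝ) (hp : 1 < p) (q : ℝ≥0∞) (hq : 1 ≤ q) (hq2 : q ≠ 2) :
    ¬ PowerMeanMonotonic p q := by
  intro hmono
  have hp0 : p ≠ 0 := by linarith
  -- choose r0 and m
  have main : ∀ r0 m : ℝ, 0 < r0 → 0 ≤ m → m < r0 →
      (∀ w d1 d2 : ℝ, 0 < w → 0 < d1 - m * d2 →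
        ‖(WithLp.toLp q ![w, -(w * r0)] : PiLp q (fun _ : Fin 2 => ℝ))‖ <
        ‖(WithLp.toLp q ![w + d1, -(w * r0) + d2] : PiLp q (fun _ : Fin 2 => ℝ))‖) → False := by
    intro r0 m hr0 hm hmr hn
    obtain ⟨w, t, X, Y, hw, ht0, ht1, hX, hY, hXY, hD⟩ := pos_core p hp r0 m hr0 hm hmr
    have h := hmono 2 X Y hX hY (show t ∈ Set.Icc (0 : ℝ) 1 from ⟨ht0.le, ht1.le⟩)
      (show (1 : ℝ) ∈ Set.Icc (0 : ℝ) 1 by constructor <;> norm_num) ht1.le
    simp only at h
    rw [powerMean_one p hp0 X Y hX, hXY] at h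
    have hup : schatten q (R2 w 0 (-(w * r0))) ≤
        ‖(WithLp.toLp q ![w, -(w * r0)] : PiLp q (fun _ : Fin 2 => ℝ))‖ := by
      have h1 := schatten_le_diag q hq (1 : Matrix (Fin 2) (Fin 2) ℂ) one_unitary
        ![w, -(w * r0)]
      have h2 : (1 : Matrix (Fin 2) (Fin 2) ℂ) *
          diagonal (fun j => ((![w, -(w * r0)] j : ℝ) : ℂ)) * 1ᴴ = R2 w 0 (-(w * r0)) := by
        ext i j
        fin_cases i <;> fin_cases j <;> simp [R2]
      rw [h2] at h1
      exact h1
    have hμH : (powerMean p t X Y).IsHermitian := mpow_isHermitian _ _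
    have hlow := pinch q hq (powerMean p t X Y - Y) (hμH.sub hY.1) 1 one_unitary
    have he : dg 1 (powerMean p t X Y - Y) =
        ![w + dg 1 (powerMean p t X Y - X) 0, -(w * r0) + dg 1 (powerMean p t X Y - X) 1] := by
      have h1 : powerMean p t X Y - Y = R2 w 0 (-(w * r0)) + (powerMean p t X Y - X) := by
        rw [← hXY]; abel
      rw [h1, dg_add]
      funext i
      fin_cases i
      · simp [dg_id_zero]
      · simp [dg_id_one]
    rw [he] at hlow
    have := hn w _ _ hw hD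
    linarith
  rcases eq_or_ne q ∞ with rfl | hqt
  · refine main (1 / 2) 0 (by norm_num) le_rfl (by norm_num) ?_
    intro w d1 d2 hw hd
    rw [PiLp.norm_eq_ciSup, PiLp.norm_eq_ciSup]
    have h1 : (⨆ i, ‖(WithLp.toLp ∞ ![w, -(w * (1 / 2))] : PiLp ∞ (fun _ : Fin 2 => ℝ)) i‖) ≤ w := by
      refine ciSup_le (fun i => ?_)
      fin_cases i
      · simp [abs_of_pos hw]
      · have : |-(w * (1 / 2))| ≤ w := by
          rw [abs_neg, abs_of_pos (by positivity)]; linarith
        simpa using this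
    have h2 := le_ciSup (f := fun i => ‖(WithLp.toLp ∞ ![w + d1, -(w * (1 / 2)) + d2] :
      PiLp ∞ (fun _ : Fin 2 => ℝ)) i‖) (Set.finite_range _).bddAbove 0
    have h3 : w + d1 ≤ ‖(WithLp.toLp ∞ ![w + d1, -(w * (1 / 2)) + d2] :
      PiLp ∞ (fun _ : Fin 2 => ℝ)) 0‖ := le_abs_self _
    have h4 : 0 < d1 := by linarith
    simp only at h2
    linarith
  · have hq0 : 0 < q.toReal := ENNReal.toReal_pos (by positivity) hqt
    have hq1 : 1 ≤ q.toReal := by
      have := ENNReal.toReal_mono hqt hq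
      simpa using this
    set Q := q.toReal with hQ
    have hQ2 : Q ≠ 2 := by
      intro h
      apply hq2
      have := congrArg ENNReal.ofReal h
      rw [hQ, ENNReal.ofReal_toReal hqt] at this
      rw [this]
      norm_num
    -- tangent line inequality
    have tang : ∀ x y : ℝ, 0 < x → x ^ Q + Q * x ^ (Q - 1) * (y - x) ≤ |y| ^ Q := by
      intro x y hx
      have h1 : x ^ Q + Q * x ^ (Q - 1) * (y - x) = x ^ Q * (1 + Q * (y / x - 1)) := by
        have : x ^ Q = x ^ (Q - 1) * x := by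
          rw [← Real.rpow_add_one hx.ne']
          congr 1
          ring
        rw [this]
        field_simp
      have h2 : |y| ^ Q = x ^ Q * |y / x| ^ Q := by
        rw [abs_div, abs_of_pos hx, Real.div_rpow (abs_nonneg _) hx.le]
        field_simp
      rw [h1, h2]
      refine mul_le_mul_of_nonneg_left ?_ (Real.rpow_nonneg hx.le _)
      rcases le_or_gt (-1) (y / x - 1) with h | h
      · have h3 := one_add_mul_self_le_rpow_one_add h hq1
        rw [show 1 + (y / x - 1) = y / x by ring] at h3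
        rcases le_total 0 (y / x) with h4 | h4
        · rw [abs_of_nonneg h4]; exact h3
        · have h5 : y / x = 0 := by linarith
          rw [h5] at h3 ⊢
          simpa using h3
      · have h3 : 0 ≤ |y / x| ^ Q := Real.rpow_nonneg (abs_nonneg _) _
        nlinarith
    have fin_case : ∀ r0 : ℝ, 0 < r0 → r0 ^ (Q - 1) < r0 → False := by
      intro r0 hr0 hlt
      refine main r0 (r0 ^ (Q - 1)) hr0 (Real.rpow_nonneg hr0.le _) hlt ?_
      intro w d1 d2 hw hd
      rw [PiLp.norm_eq_sum hq0, PiLp.norm_eq_sum hq0]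
      refine Real.rpow_lt_rpow (Finset.sum_nonneg (fun i _ => by positivity)) ?_ (by positivity)
      rw [Fin.sum_univ_two, Fin.sum_univ_two]
      have e0 : ‖(WithLp.toLp q ![w, -(w * r0)] : PiLp q (fun _ : Fin 2 => ℝ)) 0‖ = w := by
        simp [abs_of_pos hw]
      have e1 : ‖(WithLp.toLp q ![w, -(w * r0)] : PiLp q (fun _ : Fin 2 => ℝ)) 1‖ = w * r0 := by
        simp [abs_of_pos hw, abs_of_pos hr0]
      have e2 : ‖(WithLp.toLp q ![w + d1, -(w * r0) + d2] : PiLp q (fun _ : Fin 2 => ℝ)) 0‖ =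
          |w + d1| := by simp
      have e3 : ‖(WithLp.toLp q ![w + d1, -(w * r0) + d2] : PiLp q (fun _ : Fin 2 => ℝ)) 1‖ =
          |w * r0 - d2| := by
        have : |-(w * r0) + d2| = |w * r0 - d2| := by
          rw [← abs_neg]; congr 1; ring
        simpa using this
      rw [e0, e1, e2, e3]
      have t1 := tang w (w + d1) hw
      have t2 := tang (w * r0) (w * r0 - d2) (by positivity)
      have hwp : 0 < w ^ (Q - 1) := Real.rpow_pos_of_pos hw _
      have hm' : (w * r0) ^ (Q - 1) = w ^ (Q - 1) * r0 ^ (Q - 1) :=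
        Real.mul_rpow hw.le hr0.le
      rw [hm'] at t2
      have h5 : 0 < Q * w ^ (Q - 1) * (d1 - r0 ^ (Q - 1) * d2) := by positivity
      have h6 : Q * w ^ (Q - 1) * (w + d1 - w) + Q * (w ^ (Q - 1) * r0 ^ (Q - 1)) *
          (w * r0 - d2 - w * r0) = Q * w ^ (Q - 1) * (d1 - r0 ^ (Q - 1) * d2) := by ring
      linarith
    rcases lt_or_gt_of_ne hQ2 with h | h
    · refine fin_case 2 (by norm_num) ?_
      have := Real.rpow_lt_rpow_of_exponent_lt (show (1 : ℝ) < 2 by norm_num)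
        (show Q - 1 < 1 by linarith)
      simpa using this
    · refine fin_case (1 / 2) (by norm_num) ?_
      have := Real.rpow_lt_rpow_of_exponent_gt (show (0 : ℝ) < 1 / 2 by norm_num)
        (show (1 / 2 : ℝ) < 1 by norm_num) (show (1 : ℝ) < Q - 1 by linarith)
      simpa using this

end Pool.Agent.N95.PM
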